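import Pool.Agent.U695.XG.NS

/-!
# XG: squares modulo a squarefree Gaussian integer
-/

set_option autoImplicit false
set_option linter.unusedVariables false

open scoped Classical

namespace Pool.Agent.U695.XG.Crt

open Finset
open H385 (ZI nrm)
open Pool.Agent.Y699 (PP qr PD mem_PD PS qr_cases qr_zero_iff)

/-- a square modulo pairwise coprime elements is a square modulo the product -/
theorem sq_prod (a : ZI) (S : Finset ZI) (hS : ∀ π ∈ S, PP π) (h : ∀ π ∈ S, ∃ b, π ∣ a - b ^ 2) :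
    ∃ b, (∏ π ∈ S, π) ∣ a - b ^ 2 := by
  induction S using Finset.induction_on with
  | empty =>
    rw [prod_empty]
    exact ⟨0, one_dvd _⟩
  | insert π S hπ ih =>
    obtain ⟨b, hb⟩ := ih (fun ρ hρ => hS ρ (mem_insert_of_mem hρ))
      (fun ρ hρ => h ρ (mem_insert_of_mem hρ))
    obtain ⟨c, hc⟩ := h π (mem_insert_self π S)
    have hcop : IsCoprime π (∏ ρ ∈ S, ρ) := by
      refine IsCoprime.prod_right fun ρ hρ => ?_
      refine (hS π (mem_insert_self π S)).cop (hS ρ (mem_insert_of_mem hρ)) ?_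
      rintro rfl
      exact hπ hρ
    obtain ⟨u, v, huv⟩ := hcop
    set m := ∏ ρ ∈ S, ρ with hm
    refine ⟨u * π * b + v * m * c, ?_⟩
    rw [prod_insert hπ]
    have e1 : π ∣ a - (u * π * b + v * m * c) ^ 2 := by
      have h1 : π ∣ (u * π * b + v * m * c) - c := by
        refine ⟨u * (b - c), ?_⟩
        have : v * m = 1 - u * π := by rw [← huv]; ring
        rw [this]
        ring
      have h2 : π ∣ (u * π * b + v * m * c) ^ 2 - c ^ 2 := by
        rw [sq_sub_sq]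
        exact h1.mul_left _
      have h3 := dvd_sub hc h2
      have e : a - c ^ 2 - ((u * π * b + v * m * c) ^ 2 - c ^ 2) =
        a - (u * π * b + v * m * c) ^ 2 := by ring
      rwa [e] at h3
    have e2 : m ∣ a - (u * π * b + v * m * c) ^ 2 := by
      have h1 : m ∣ (u * π * b + v * m * c) - b := by
        refine ⟨v * (c - b), ?_⟩
        have : u * π = 1 - v * m := by rw [← huv]; ring
        rw [this]
        ring
      have h2 : m ∣ (u * π * b + v * m * c) ^ 2 - b ^ 2 := by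
        rw [sq_sub_sq]
        exact h1.mul_left _
      have h3 := dvd_sub hb h2
      have e : a - b ^ 2 - ((u * π * b + v * m * c) ^ 2 - b ^ 2) =
        a - (u * π * b + v * m * c) ^ 2 := by ring
      rwa [e] at h3
    exact IsCoprime.mul_dvd ⟨u, v, huv⟩ e1 e2

/-- the symbols are `1` exactly if there is a square root modulo `d` -/
theorem qr_all {d a : ZI} (hd : PS d) (hc : IsCoprime d a) :
    (∀ π ∈ PD d, qr π a = 1) ↔ ∃ b, d ∣ a - b ^ 2 := by
  have hnd : ∀ π ∈ PD d, ¬ π ∣ a := by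
    intro π hπ h
    obtain ⟨h1, h2⟩ := (mem_PD hd.ne).1 hπ
    exact h1.pr.not_isUnit (hc.isUnit_of_dvd' h2 h)
  have key : ∀ π ∈ PD d, (qr π a = 1 ↔ ∃ b, π ∣ a - b ^ 2) := by
    intro π hπ
    unfold Pool.Agent.Y699.qr
    rw [if_neg (hnd π hπ)]
    split_ifs with h
    · exact ⟨fun _ => h, fun _ => rfl⟩
    · exact ⟨fun h' => absurd h' (by decide), fun h' => absurd h' h⟩
  constructor
  · intro h
    have h1 := sq_prod a (PD d) (fun π hπ => ((mem_PD hd.ne).1 hπ).1)
      (fun π hπ => (key π hπ).1 (h π hπ))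
    rwa [hd.prod] at h1
  · rintro ⟨b, hb⟩ π hπ
    exact (key π hπ).2 ⟨b, ((mem_PD hd.ne).1 hπ).2.trans hb⟩

/-- `D = d d'` only trivially, if `d` and `d'` are primary and squares modulo each other -/
def Ind (D : ZI) : Prop := ∀ d d' : ZI, (⟨2, 2⟩ : ZI) ∣ d - 1 → (⟨2, 2⟩ : ZI) ∣ d' - 1 → D = d * d' →
  (∃ b, d ∣ d' - b ^ 2) → (∃ b, d' ∣ d - b ^ 2) → d = 1 ∨ d' = 1

theorem ind_iff {D : ZI} (hD : PS D) : Ind D ↔ Gd (PD D) := by
  rw [NSf.gd_iff hD]
  have hp : ∀ d : ZI, (⟨2, 2⟩ : ZI) ∣ d - 1 ↔ Pool.Agent.H304R2.EC.A1.prim d := fun d =>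
    (Pool.Agent.W164.RC.prim_iff_dvd d).symm
  have hcop : ∀ d d' : ZI, D = d * d' → IsCoprime d d' := by
    intro d d' h
    have hsq := hD.sqf
    rw [h] at hsq
    exact (squarefree_mul_iff.1 hsq).1.isCoprime
  constructor
  · intro h d d' hd hd' hdd h1 h2
    have hPd : PS d := hD.of_dvd hd ⟨d', hdd⟩
    have hPd' : PS d' := hD.of_dvd hd' ⟨d, by rw [hdd, mul_comm]⟩
    exact h d d' ((hp d).2 hd) ((hp d').2 hd') hdd ((qr_all hPd (hcop d d' hdd)).1 h1)
      ((qr_all hPd' (hcop d d' hdd).symm).1 h2)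
  · intro h d d' hd hd' hdd h1 h2
    have hd0 := (hp d).1 hd
    have hd0' := (hp d').1 hd'
    have hPd : PS d := hD.of_dvd hd0 ⟨d', hdd⟩
    have hPd' : PS d' := hD.of_dvd hd0' ⟨d, by rw [hdd, mul_comm]⟩
    exact h d d' hd0 hd0' hdd ((qr_all hPd (hcop d d' hdd)).2 h1)
      ((qr_all hPd' (hcop d d' hdd).symm).2 h2)

end Pool.Agent.U695.XG.Crt
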