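import Pool.Agent.U695.XG.Ch

/-!
# XG-BIL: bilinear sums of quadratic symbols over the Gaussian integers

The bilinear estimate `Pool.Agent.Y699.box` (real coefficients) for complex coefficients.
-/

set_option autoImplicit false
set_option linter.all false

open Finset

namespace Pool.Agent.U695.XG.BILf

open Pool.Agent.U695.XG
open H385 (ZI nrm)
open Pool.Agent.Y699 (QB PP qr SB PS mem_SB Bil box jac jac_prime)

open Classical in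
theorem real_form : ∃ C : ℝ, 1 ≤ C ∧ ∀ (P Q : Finset ZI) (A B z : ℕ) (c d : ZI → ℝ),
    (∀ π ∈ P, PP π ∧ nrm π ≤ A) → (∀ ρ ∈ Q, PP ρ ∧ nrm ρ ≤ B) → Disjoint P Q →
    1 ≤ z → z ≤ A → z ≤ B → (∀ π, |c π| ≤ 1) → (∀ ρ, |d ρ| ≤ 1) →
    |∑ π ∈ P, ∑ ρ ∈ Q, c π * d ρ * (qr π ρ : ℝ)| ≤
      C * (A * B) * (z : ℝ) ^ (-(1 / 24) : ℝ) := by
  obtain ⟨C, hC1, hC⟩ := box
  refine ⟨2 * C, by linarith, ?_⟩
  intro P Q A B z c d hP hQ hdis hz hzA hzB hc hd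
  have hPA : P ⊆ SB A := fun x hx => mem_SB.2 ⟨(hP x hx).2, (hP x hx).1.ps⟩
  have hQB : Q ⊆ SB B := fun x hx => mem_SB.2 ⟨(hQ x hx).2, (hQ x hx).1.ps⟩
  have h1 := hC (fun x => if x ∈ P then c x else 0) (fun y => if y ∈ Q then d y else 0)
    (fun x => by
      show |if x ∈ P then c x else 0| ≤ 1
      split_ifs
      · exact hc x
      · rw [abs_zero]; exact zero_le_one)
    (fun y => by
      show |if y ∈ Q then d y else 0| ≤ 1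
      split_ifs
      · exact hd y
      · rw [abs_zero]; exact zero_le_one) A B (hz.trans hzA) (hz.trans hzB)
  have e1 : Bil (fun x => if x ∈ P then c x else 0) (fun y => if y ∈ Q then d y else 0) A B =
      ∑ π ∈ P, ∑ ρ ∈ Q, c π * d ρ * (qr π ρ : ℝ) := by
    unfold Bil
    refine (sum_subset hPA fun x _ hx => ?_).symm.trans (sum_congr rfl fun x hx => ?_)
    · refine sum_eq_zero fun y _ => ?_
      show (if x ∈ P then c x else 0) * (if y ∈ Q then d y else 0) * (jac x y : ℝ) = 0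
      rw [if_neg hx, zero_mul, zero_mul]
    · refine (sum_subset hQB fun y _ hy => ?_).symm.trans (sum_congr rfl fun y hy => ?_)
      · show (if x ∈ P then c x else 0) * (if y ∈ Q then d y else 0) * (jac x y : ℝ) = 0
        rw [if_neg hy, mul_zero, zero_mul]
      · show (if x ∈ P then c x else 0) * (if y ∈ Q then d y else 0) * (jac x y : ℝ) = _
        rw [if_pos hx, if_pos hy, jac_prime (hP x hx).1]
  rw [e1] at h1
  have hz0 : (0 : ℝ) < z := by exact_mod_cast hz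
  have hzA' : (z : ℝ) ≤ A := by exact_mod_cast hzA
  have hzB' : (z : ℝ) ≤ B := by exact_mod_cast hzB
  have hA0 : (0 : ℝ) < A := lt_of_lt_of_le hz0 hzA'
  have hB0 : (0 : ℝ) < B := lt_of_lt_of_le hz0 hzB'
  have h2 : (A : ℝ) ^ (-(1 / 24) : ℝ) ≤ (z : ℝ) ^ (-(1 / 24) : ℝ) :=
    Real.rpow_le_rpow_of_nonpos hz0 hzA' (by norm_num)
  have h3 : (B : ℝ) ^ (-(1 / 24) : ℝ) ≤ (z : ℝ) ^ (-(1 / 24) : ℝ) :=
    Real.rpow_le_rpow_of_nonpos hz0 hzB' (by norm_num)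
  set q : ℝ := (z : ℝ) ^ (-(1 / 24) : ℝ) with hq
  refine h1.trans ?_
  have h5 : (A : ℝ) * B * ((A : ℝ) ^ (-(1 / 24) : ℝ) + (B : ℝ) ^ (-(1 / 24) : ℝ)) ≤
      A * B * (q + q) := by
    apply mul_le_mul_of_nonneg_left (add_le_add h2 h3) (by positivity)
  have h6 := mul_le_mul_of_nonneg_left h5 (by linarith : (0 : ℝ) ≤ C)
  refine h6.trans (le_of_eq ?_)
  ring

theorem core : ∃ C : ℝ, 1 ≤ C ∧ ∀ (P Q : Finset ZI) (A B z : ℕ) (c d : ZI → ℂ),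
    (∀ π ∈ P, PP π ∧ nrm π ≤ A) → (∀ ρ ∈ Q, PP ρ ∧ nrm ρ ≤ B) → Disjoint P Q →
    1 ≤ z → z ≤ A → z ≤ B → (∀ π, ‖c π‖ ≤ 1) → (∀ ρ, ‖d ρ‖ ≤ 1) →
    ‖∑ π ∈ P, ∑ ρ ∈ Q, c π * d ρ * ez (cs π ρ)‖ ^ 24 * z ≤ C * ((A : ℝ) * B) ^ 24 := by
  obtain ⟨C, hC1, hC⟩ := real_form
  refine ⟨(4 * C) ^ 24, one_le_pow₀ (by linarith), ?_⟩
  intro P Q A B z c d hP hQ hdis hz hzA hzB hc hd
  have hr : ∀ (f : ZI → ℂ), (∀ π, ‖f π‖ ≤ 1) → ∀ π, |(f π).re| ≤ 1 := fun f hf π =>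
    (Complex.abs_re_le_norm _).trans (hf π)
  have hi : ∀ (f : ZI → ℂ), (∀ π, ‖f π‖ ≤ 1) → ∀ π, |(f π).im| ≤ 1 := fun f hf π =>
    (Complex.abs_im_le_norm _).trans (hf π)
  have k1 := hC P Q A B z (fun π => (c π).re) (fun ρ => (d ρ).re) hP hQ hdis hz hzA hzB (hr c hc)
    (hr d hd)
  have k2 := hC P Q A B z (fun π => (c π).im) (fun ρ => (d ρ).im) hP hQ hdis hz hzA hzB (hi c hc)
    (hi d hd)
  have k3 := hC P Q A B z (fun π => (c π).re) (fun ρ => (d ρ).im) hP hQ hdis hz hzA hzB (hr c hc)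
    (hi d hd)
  have k4 := hC P Q A B z (fun π => (c π).im) (fun ρ => (d ρ).re) hP hQ hdis hz hzA hzB (hi c hc)
    (hr d hd)
  set q : ℝ := (z : ℝ) ^ (-(1 / 24) : ℝ) with hq
  have hz0 : (0 : ℝ) < z := by exact_mod_cast hz
  have hq24 : q ^ 24 * z = 1 := by
    rw [hq, ← Real.rpow_natCast, ← Real.rpow_mul hz0.le]
    norm_num
    rw [Real.rpow_neg_one]
    exact inv_mul_cancel₀ hz0.ne'
  have e1 : ∑ π ∈ P, ∑ ρ ∈ Q, c π * d ρ * ez (cs π ρ) =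
      (((∑ π ∈ P, ∑ ρ ∈ Q, (c π).re * (d ρ).re * (qr π ρ : ℝ)) : ℝ) : ℂ) -
      (((∑ π ∈ P, ∑ ρ ∈ Q, (c π).im * (d ρ).im * (qr π ρ : ℝ)) : ℝ) : ℂ) +
      ((((∑ π ∈ P, ∑ ρ ∈ Q, (c π).re * (d ρ).im * (qr π ρ : ℝ)) : ℝ) : ℂ) +
      (((∑ π ∈ P, ∑ ρ ∈ Q, (c π).im * (d ρ).re * (qr π ρ : ℝ)) : ℝ) : ℂ)) * Complex.I := by
    push_cast
    rw [← sum_sub_distrib, ← sum_add_distrib, sum_mul, ← sum_add_distrib]
    refine sum_congr rfl fun π hπ => ?_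
    rw [← sum_sub_distrib, ← sum_add_distrib, sum_mul, ← sum_add_distrib]
    refine sum_congr rfl fun ρ hρ => ?_
    have hnd : ¬ π ∣ ρ := by
      intro hd'
      have he := (hP π hπ).1.eq_of_dvd (hQ ρ hρ).1 hd'
      exact (Finset.disjoint_left.1 hdis) hπ (he ▸ hρ)
    rw [ez_cs hnd]
    conv_lhs => rw [← Complex.re_add_im (c π), ← Complex.re_add_im (d ρ)]
    ring_nf
    rw [Complex.I_sq]
    ring
  have h4 : ‖∑ π ∈ P, ∑ ρ ∈ Q, c π * d ρ * ez (cs π ρ)‖ ≤ 4 * C * (A * B) * q := by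
    rw [e1]
    refine (norm_add_le _ _).trans ?_
    have n1 := norm_sub_le
      (((∑ π ∈ P, ∑ ρ ∈ Q, (c π).re * (d ρ).re * (qr π ρ : ℝ)) : ℝ) : ℂ)
      (((∑ π ∈ P, ∑ ρ ∈ Q, (c π).im * (d ρ).im * (qr π ρ : ℝ)) : ℝ) : ℂ)
    have n2 := norm_add_le
      (((∑ π ∈ P, ∑ ρ ∈ Q, (c π).re * (d ρ).im * (qr π ρ : ℝ)) : ℝ) : ℂ)
      (((∑ π ∈ P, ∑ ρ ∈ Q, (c π).im * (d ρ).re * (qr π ρ : ℝ)) : ℝ) : ℂ)
    rw [norm_mul, Complex.norm_I, mul_one]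
    rw [Complex.norm_real, Complex.norm_real, Real.norm_eq_abs, Real.norm_eq_abs] at n1 n2
    refine (add_le_add n1 n2).trans ?_
    refine (add_le_add (add_le_add k1 k2) (add_le_add k3 k4)).trans (le_of_eq ?_)
    ring
  have h5 := pow_le_pow_left₀ (norm_nonneg _) h4 24
  calc ‖∑ π ∈ P, ∑ ρ ∈ Q, c π * d ρ * ez (cs π ρ)‖ ^ 24 * z ≤
      (4 * C * (A * B) * q) ^ 24 * z := mul_le_mul_of_nonneg_right h5 hz0.le
    _ = (4 * C) ^ 24 * ((A : ℝ) * B) ^ 24 * (q ^ 24 * z) := by ring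
    _ = (4 * C) ^ 24 * ((A : ℝ) * B) ^ 24 := by rw [hq24, mul_one]

theorem t_BIL : S_BIL := by
  obtain ⟨C, hC1, hC⟩ := core
  refine ⟨C, hC1, ?_⟩
  intro P Q A B z c d a hP hQ hdis ha hz hzA hzB hc hd
  have h3 : a = 1 := (z2 a).resolve_left ha
  subst h3
  simp only [one_mul]
  exact hC P Q A B z c d hP hQ hdis hz hzA hzB hc hd

end Pool.Agent.U695.XG.BILf
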