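import Pool.Agent.U695.XG.Ch

/-! XK-BOX: the count in a box (adapted from `Pool.Agent.Y911.CX.BOX` and
`Pool.Agent.Y657.CQ.BOX`). -/

set_option autoImplicit false

open scoped Classical

namespace Pool.Agent.U695.XG.BOXf

open Finset
open H385 (ZI nrm)
open Pool.Agent.Y699 (PP)
open Pool.Agent.U695.XG

/-- the label of a prime with respect to the small primes -/
noncomputable def lb (S₀ : Finset ZI) (x : ZI) : S₀ → ZMod 2 := fun u => cs u x

/-- the good labels -/
def LN {ι : Type} (S₀ : Finset ZI) (β : ι → S₀ → ZMod 2) : Prop :=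
  ∀ w : S₀ → ZMod 2, (∃ u, w u ≠ 0) → ∃ i, ∑ u, w u * β i u ≠ 0

section one
variable {ι : Type} [Fintype ι] [LinearOrder ι] {S₀ : Finset ZI} {p : ι → ZI}

/-- extension by zero -/
noncomputable def ez0 {S₀ : Finset ZI} (v : S₀ → ZMod 2) (n : ZI) : ZMod 2 :=
  if h : n ∈ S₀ then v ⟨n, h⟩ else 0

theorem ez0_coe {S₀ : Finset ZI} (v : S₀ → ZMod 2) (u : S₀) : ez0 v u = v u := by
  unfold ez0
  rw [dif_pos u.2]

omit [LinearOrder ι] in
theorem nd_iff : Nd S₀ (univ.image p) ↔ LN S₀ (fun i => lb S₀ (p i)) := by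
  unfold Nd LN
  constructor
  · intro h w hw
    obtain ⟨u, hu⟩ := hw
    obtain ⟨x, hx, hx2⟩ := h (ez0 w) ⟨u, u.2, by rw [ez0_coe]; exact hu⟩
    rw [Finset.mem_image] at hx
    obtain ⟨i, -, rfl⟩ := hx
    refine ⟨i, ?_⟩
    rw [← Finset.sum_coe_sort S₀] at hx2
    intro h0
    apply hx2
    rw [← h0]
    refine Finset.sum_congr rfl fun u _ => ?_
    rw [ez0_coe]
    rfl
  · intro h w hw
    obtain ⟨u, hu0, hu⟩ := hw
    obtain ⟨i, hi⟩ := h (fun u => w u) ⟨⟨u, hu0⟩, hu⟩
    refine ⟨p i, Finset.mem_image_of_mem _ (Finset.mem_univ _), ?_⟩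
    rw [← Finset.sum_coe_sort S₀]
    exact hi

omit [LinearOrder ι] in
theorem sum_un (hp : Function.Injective p) (hd : ∀ i, p i ∉ S₀) (f : ZI → ZMod 2) :
    ∑ x ∈ S₀ ∪ univ.image p, f x = ∑ u : S₀, f u + ∑ l, f (p l) := by
  rw [Finset.sum_union, Finset.sum_image (fun a _ b _ h => hp h), ← Finset.sum_coe_sort S₀]
  rw [Finset.disjoint_left]
  intro x hx hx'
  rw [Finset.mem_image] at hx'
  obtain ⟨i, -, rfl⟩ := hx'
  exact hd i hx

theorem ext_sum (hpr : ∀ i, PP (p i)) (k : ι) (d : ι → ZMod 2) :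
    ∑ l, Pool.Agent.U695.XG.ext (fun e : prs ι => cs (p e.1.1) (p e.1.2)) k l * (d l - d k) =
      ∑ l, cs (p k) (p l) * (d l - d k) := by
  refine Finset.sum_congr rfl fun l _ => ?_
  by_cases hlk : l = k
  · rw [hlk, sub_self, mul_zero, mul_zero]
  congr 1
  unfold Pool.Agent.U695.XG.ext
  by_cases h : (k, l) ∈ prs ι
  · rw [dif_pos h]
  · rw [dif_neg h]
    have h2 : (l, k) ∈ prs ι := by
      unfold prs at h ⊢
      rw [Finset.mem_filter] at h ⊢
      refine ⟨Finset.mem_univ _, ?_⟩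
      rcases lt_trichotomy l k with h1 | h1 | h1
      · exact h1
      · exact absurd h1 hlk
      · exact absurd ⟨Finset.mem_univ _, h1⟩ h
    rw [dif_pos h2]
    exact cs_symm (hpr l) (hpr k)

theorem gd_iff (hp : Function.Injective p) (hpr : ∀ i, PP (p i)) (hS₀ : ∀ u ∈ S₀, PP u)
    (hd : ∀ i, p i ∉ S₀) (k₀ : ι) :
    Gd (S₀ ∪ univ.image p) ↔ GdA (fun u v : S₀ => cs u v) (fun (u : S₀) l => cs u (p l))
      (Pool.Agent.U695.XG.ext fun e : prs ι => cs (p e.1.1) (p e.1.2)) := by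
  have hsol : ∀ c : ZI → ZMod 2, Sol (S₀ ∪ univ.image p) c ↔
      (∀ u : S₀, ∑ v : S₀, cs u v * (c v - c u) + ∑ l, cs u (p l) * (c (p l) - c u) = 0) ∧
      (∀ k : ι, ∑ u : S₀, cs u (p k) * (c u - c (p k)) +
        ∑ l, Pool.Agent.U695.XG.ext (fun e : prs ι => cs (p e.1.1) (p e.1.2)) k l *
          (c (p l) - c (p k)) = 0) := by
    intro c
    have hsym : ∀ k : ι, ∑ u : S₀, cs (p k) u * (c u - c (p k)) =
        ∑ u : S₀, cs u (p k) * (c u - c (p k)) := by
      intro k
      refine Finset.sum_congr rfl fun u _ => ?_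
      rw [cs_symm (hpr k) (hS₀ u u.2)]
    unfold Sol
    constructor
    · intro h
      refine ⟨fun u => ?_, fun k => ?_⟩
      · have := h u (Finset.mem_union_left _ u.2)
        rw [sum_un hp hd] at this
        exact this
      · have := h (p k) (Finset.mem_union_right _ (Finset.mem_image_of_mem _ (Finset.mem_univ _)))
        rw [sum_un hp hd, hsym] at this
        rw [ext_sum hpr k (fun l => c (p l))]
        exact this
    · rintro ⟨h1, h2⟩ x hx
      rw [sum_un hp hd]
      rw [Finset.mem_union, Finset.mem_image] at hx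
      rcases hx with hx | ⟨k, -, rfl⟩
      · exact h1 ⟨x, hx⟩
      · have := h2 k
        rw [ext_sum hpr k (fun l => c (p l))] at this
        rw [hsym]
        exact this
  unfold Gd GdA
  constructor
  · intro h c d h1 h2
    obtain ⟨c', hc'⟩ : ∃ c' : ZI → ZMod 2, ∀ n, c' n = if h : n ∈ S₀ then c ⟨n, h⟩ else
      if h : ∃ l, p l = n then d h.choose else 0 := ⟨_, fun n => rfl⟩
    have e1 : ∀ u : S₀, c' u = c u := by
      intro u
      rw [hc', dif_pos u.2]
    have e2 : ∀ l, c' (p l) = d l := by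
      intro l
      have hex : ∃ l', p l' = p l := ⟨l, rfl⟩
      rw [hc', dif_neg (hd l), dif_pos hex]
      exact congrArg d (hp hex.choose_spec)
    have hs : Sol (S₀ ∪ univ.image p) c' := by
      rw [hsol]
      refine ⟨fun u => ?_, fun k => ?_⟩
      · simp only [e1, e2]
        exact h1 u
      · simp only [e1, e2]
        exact h2 k
    have h3 := h c' hs
    have hk₀' : p k₀ ∈ S₀ ∪ univ.image p :=
      Finset.mem_union_right _ (Finset.mem_image_of_mem _ (Finset.mem_univ _))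
    refine ⟨d k₀, fun u => ?_, fun l => ?_⟩
    · rw [← e1, ← e2]
      exact h3 _ (Finset.mem_union_left _ u.2) _ hk₀'
    · rw [← e2, ← e2 k₀]
      exact h3 _ (Finset.mem_union_right _ (Finset.mem_image_of_mem _ (Finset.mem_univ _))) _ hk₀'
  · intro h c hc
    rw [hsol] at hc
    obtain ⟨t, ht1, ht2⟩ := h (fun u => c u) (fun l => c (p l)) (fun u => hc.1 u)
      (fun k => hc.2 k)
    have h4 : ∀ x ∈ S₀ ∪ univ.image p, c x = t := by
      intro x hx
      rw [Finset.mem_union, Finset.mem_image] at hx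
      rcases hx with hx | ⟨k, -, rfl⟩
      · exact ht1 ⟨x, hx⟩
      · exact ht2 k
    intro x hx y hy
    rw [h4 x hx, h4 y hy]

end one

theorem HB_sub {ι : Type} {C : ι → Finset ZI} {X : ι → ℕ} {κ : ℝ}
    (h : HB C X κ) (P : ι → ZI → Prop) [∀ i, DecidablePred (P i)] :
    HB (fun i => (C i).filter (P i)) X κ := by
  intro i l hil a c d ha hc hd
  have h1 := h i l hil a (fun x => if P i x then c x else 0) (fun y => if P l y then d y else 0)
    ha (fun x => by
      split_ifs
      · exact hc x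
      · simp) (fun y => by
      split_ifs
      · exact hd y
      · simp)
  refine (le_of_eq ?_).trans h1
  congr 1
  rw [Finset.sum_filter]
  refine Finset.sum_congr rfl fun x _ => ?_
  by_cases hx : P i x
  · rw [if_pos hx, Finset.sum_filter]
    refine Finset.sum_congr rfl fun y _ => ?_
    by_cases hy : P l y
    · rw [if_pos hy, if_pos hx, if_pos hy]
    · rw [if_neg hy, if_neg hy, mul_zero, zero_mul]
  · rw [if_neg hx]
    symm
    refine Finset.sum_eq_zero fun y _ => ?_
    rw [if_neg hx, zero_mul, zero_mul]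

/-- **The count in a box.** -/
theorem t_BOX : S_BOX := by
  intro hEQ hLA ι _ _ C X κ S₀ hκ hCX hHB hS₀ hC hdis hcard
  obtain ⟨cc, hcc⟩ : ∃ cc : ℝ, cc = 2 * (2 ^ S₀.card / 2 ^ Fintype.card ι) := ⟨_, rfl⟩
  obtain ⟨R, hR⟩ : ∃ R : ℝ, R = 2 ^ (prs ι).card * (κ * ∏ j, (X j : ℝ)) := ⟨_, rfl⟩
  have hcc0 : 0 ≤ cc := by rw [hcc]; positivity
  have hR0 : 0 ≤ R := by
    rw [hR]
    exact mul_nonneg (by positivity)
      (mul_nonneg hκ (Finset.prod_nonneg fun j _ => by positivity))
  have hιne : Nonempty ι := Fintype.card_pos_iff.1 (by omega)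
  obtain ⟨k₀⟩ := hιne
  -- facts on tuples
  have hinj : ∀ p ∈ Fintype.piFinset C, Function.Injective p := by
    intro p hp i j hij
    rw [Fintype.mem_piFinset] at hp
    by_contra hne
    have h1 := Finset.disjoint_left.1 (hdis i j hne) (hp i)
    rw [hij] at h1
    exact h1 (hp j)
  have hd : ∀ p ∈ Fintype.piFinset C, ∀ i, p i ∉ S₀ := by
    intro p hp i
    rw [Fintype.mem_piFinset] at hp
    exact (hC i _ (hp i)).2
  have hpr : ∀ p ∈ Fintype.piFinset C, ∀ i, PP (p i) := by
    intro p hp i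
    rw [Fintype.mem_piFinset] at hp
    exact (hC i _ (hp i)).1
  -- the part with given labels
  have h1 : ∀ β : ι → S₀ → ZMod 2, LN S₀ β →
      |(((Fintype.piFinset C).filter fun p => (fun i => lb S₀ (p i)) = β ∧
          Gd (S₀ ∪ univ.image p)).card : ℝ) -
        c2 * (((Fintype.piFinset C).filter fun p => (fun i => lb S₀ (p i)) = β).card : ℝ)| ≤
      cc * (((Fintype.piFinset C).filter fun p => (fun i => lb S₀ (p i)) = β).card : ℝ) + R := by
    intro β hβ
    obtain ⟨C', hC'⟩ : ∃ C' : ι → Finset ZI, C' = fun i => (C i).filter fun q => lb S₀ q = β i :=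
      ⟨_, rfl⟩
    have hpi : (Fintype.piFinset C).filter (fun p => (fun i => lb S₀ (p i)) = β) =
        Fintype.piFinset C' := by
      ext p
      simp only [Finset.mem_filter, Fintype.mem_piFinset, hC']
      constructor
      · rintro ⟨h2, h3⟩ i
        exact ⟨h2 i, congrFun h3 i⟩
      · intro h2
        exact ⟨fun i => (h2 i).1, funext fun i => (h2 i).2⟩
    have h2 := hLA S₀ ι (fun u v => cs u v) (fun u l => β l u)
      (by rw [Fintype.card_coe]; exact hcard)
      (fun u v => cs_symm (hS₀ u u.2) (hS₀ v v.2))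
      (fun w hw => hβ w hw)
    obtain ⟨Q, hQ⟩ : ∃ Q : (prs ι → ZMod 2) → Prop, Q = fun α =>
        GdA (fun u v : S₀ => cs u v) (fun (u : S₀) l => β l u)
          (Pool.Agent.U695.XG.ext α) := ⟨_, rfl⟩
    have h3 := hEQ ι C' X κ hκ
      (fun i => (Finset.card_le_card (by rw [hC']; exact Finset.filter_subset _ _)).trans (hCX i))
      (by rw [hC']; exact HB_sub hHB fun i q => lb S₀ q = β i) Q
    have h4 : ((Fintype.piFinset C).filter fun p => (fun i => lb S₀ (p i)) = β ∧
        Gd (S₀ ∪ univ.image p)) = ((Fintype.piFinset C').filter fun p =>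
          Q fun e => cs (p e.1.1) (p e.1.2)) := by
      rw [← hpi, Finset.filter_filter]
      refine Finset.filter_congr fun p hp => ?_
      refine and_congr_right fun hl => ?_
      rw [gd_iff (hinj p hp) (hpr p hp) hS₀ (hd p hp) k₀]
      subst hl
      rw [hQ]
      exact Iff.rfl
    have h5 : (((Fintype.piFinset C').card : ℕ) : ℝ) = ∏ j, ((C' j).card : ℝ) := by
      rw [Fintype.card_piFinset]
      push_cast
      rfl
    rw [h4, hpi, h5]
    rw [Fintype.card_coe, ← hcc] at h2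
    rw [← hR] at h3
    obtain ⟨n, hn⟩ : ∃ n : ℝ, n = (((Fintype.piFinset C').filter fun p =>
          Q fun e => cs (p e.1.1) (p e.1.2)).card : ℝ) := ⟨_, rfl⟩
    obtain ⟨q, hq⟩ : ∃ q : ℝ, q = ((univ.filter Q).card : ℝ) / 2 ^ (prs ι).card := ⟨_, rfl⟩
    obtain ⟨P, hP⟩ : ∃ P : ℝ, P = ∏ j, ((C' j).card : ℝ) := ⟨_, rfl⟩
    have hP0 : 0 ≤ P := by
      rw [hP]
      exact Finset.prod_nonneg fun j _ => by positivity
    have h2' : |q - c2| ≤ cc := by
      rw [hq, hQ]
      exact h2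
    rw [← hn, ← hq, ← hP] at h3
    rw [← hn, ← hP]
    have h6 : |n - c2 * P| ≤ |n - q * P| + |q - c2| * P := by
      have h7 : n - c2 * P = (n - q * P) + (q - c2) * P := by ring
      have h8 : |(q - c2) * P| = |q - c2| * P := by rw [abs_mul, abs_of_nonneg hP0]
      rw [h7, ← h8]
      exact abs_add_le _ _
    have h7 : |q - c2| * P ≤ cc * P := mul_le_mul_of_nonneg_right h2' hP0
    linarith
  -- sum over the labels
  obtain ⟨LL, hLL⟩ : ∃ LL : Finset (ι → S₀ → ZMod 2), LL = univ.filter (fun β => LN S₀ β) :=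
    ⟨_, rfl⟩
  have hfib : ∀ T : (ι → ZI) → Prop,
      (((Fintype.piFinset C).filter fun p => Nd S₀ (univ.image p) ∧ T p).card : ℝ) =
      ∑ β ∈ LL, (((Fintype.piFinset C).filter fun p =>
        (fun i => lb S₀ (p i)) = β ∧ T p).card : ℝ) := by
    intro T
    rw [Finset.card_eq_sum_card_fiberwise (f := fun (p : ι → ZI) (i : ι) => lb S₀ (p i))
      (t := LL) (by
        intro p hp
        rw [Finset.mem_coe, Finset.mem_filter] at hp
        rw [Finset.mem_coe, hLL, Finset.mem_filter]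
        exact ⟨Finset.mem_univ _, nd_iff.1 hp.2.1⟩)]
    push_cast
    refine Finset.sum_congr rfl fun β hβ => ?_
    rw [hLL, Finset.mem_filter] at hβ
    congr 2
    ext p
    simp only [Finset.mem_filter]
    constructor
    · rintro ⟨⟨h3, h4, h4'⟩, h5⟩
      exact ⟨h3, h5, h4'⟩
    · rintro ⟨h3, h4, h5⟩
      refine ⟨⟨h3, ?_, h5⟩, h4⟩
      rw [nd_iff, h4]
      exact hβ.2
  have hf1 := hfib fun p => Gd (S₀ ∪ univ.image p)
  have hf2 := hfib fun _ => True
  simp only [and_true] at hf2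
  rw [← hcc, hf1, hf2, Finset.mul_sum, ← Finset.sum_sub_distrib]
  refine (Finset.abs_sum_le_sum_abs _ _).trans ?_
  refine (Finset.sum_le_sum fun β hβ => h1 β (by
    rw [hLL] at hβ
    exact (Finset.mem_filter.1 hβ).2)).trans ?_
  rw [Finset.sum_add_distrib, ← Finset.mul_sum, Finset.sum_const, nsmul_eq_mul]
  have h5 : ((LL.card : ℕ) : ℝ) ≤ 2 ^ (S₀.card * Fintype.card ι) := by
    have h6 : LL.card ≤ Fintype.card (ι → S₀ → ZMod 2) :=
      Finset.card_le_univ _
    rw [Fintype.card_fun, Fintype.card_fun, ZMod.card, Fintype.card_coe, ← pow_mul] at h6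
    exact_mod_cast h6
  have h6 := mul_le_mul_of_nonneg_right h5 hR0
  rw [pow_add, mul_assoc, ← hR]
  linarith

end Pool.Agent.U695.XG.BOXf
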