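import Pool.Agent.U695.XG.Ch
import Pool.Agent.Y699.Pos
import Pool.Agent.Y699.R10

/-!
# XG: translation between Gaussian integers and sets of primary primes, positive density, and the
criterion
-/

set_option autoImplicit false
set_option linter.unusedVariables false

open scoped Classical

namespace Pool.Agent.U695.XG.NSf

open Finset
open H385 (ZI nrm)
open Pool.Agent.U695.XG
open Pool.Agent.Y699 (PP QB mem_QB qr PD mem_PD PS PS_prod SB mem_SB Good Good4 GB GB₄ nrm_prod
  norm_le_of_dvd qr_cases qr_zero_iff jac_prime jac_prod)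

/-- the elements of the class -/
def El (r : Finset ℕ) (D : ZI) : Prop := PS D ∧ nrm D % 16 ∈ r

theorem nrm_PD {D : ZI} (hD : PS D) : ∏ π ∈ PD D, nrm π = nrm D := by
  rw [← nrm_prod (PD D) (fun π => π), hD.prod]

theorem cl_iff {r : Finset ℕ} {D : ZI} (hD : PS D) : El r D ↔ Cl r (PD D) := by
  unfold El Cl
  rw [nrm_PD hD]
  constructor
  · rintro ⟨-, h⟩
    exact ⟨fun π hπ => ((mem_PD hD.ne).1 hπ).1, h⟩
  · rintro ⟨-, h⟩
    exact ⟨hD, h⟩

theorem card_eq (r : Finset ℕ) (X : ℕ) (Q : Finset ZI → Prop) :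
    {D : ZI | nrm D ≤ X ∧ El r D ∧ Q (PD D)}.ncard = ((SS r X).filter Q).card := by
  have h1 : {D : ZI | nrm D ≤ X ∧ El r D ∧ Q (PD D)} =
      (fun S : Finset ZI => ∏ π ∈ S, π) '' (((SS r X).filter Q : Finset (Finset ZI)) :
        Set (Finset ZI)) := by
    ext D
    constructor
    · rintro ⟨h1, h2, h3⟩
      have hD : PS D := h2.1
      refine ⟨PD D, ?_, hD.prod⟩
      rw [Finset.mem_coe, Finset.mem_filter]
      refine ⟨?_, h3⟩
      unfold SS
      rw [Finset.mem_filter, Finset.mem_powerset]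
      refine ⟨fun π hπ => ?_, (cl_iff hD).1 h2, ?_⟩
      · obtain ⟨h5, h6⟩ := (mem_PD hD.ne).1 hπ
        exact mem_QB.2 ⟨(norm_le_of_dvd hD.ne h6).trans h1, h5⟩
      · rw [nrm_PD hD]
        exact h1
    · rintro ⟨S, hS, rfl⟩
      rw [Finset.mem_coe, Finset.mem_filter] at hS
      obtain ⟨h1, h2⟩ := hS
      unfold SS at h1
      rw [Finset.mem_filter] at h1
      obtain ⟨-, h3, h4⟩ := h1
      obtain ⟨h5, h6⟩ := PS_prod h3.1
      refine ⟨?_, (cl_iff h5).2 (by rw [h6]; exact h3), by rw [h6]; exact h2⟩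
      show nrm (∏ π ∈ S, π) ≤ X
      rw [nrm_prod]
      exact h4
  rw [h1, Set.ncard_image_of_injOn, Set.ncard_coe_finset]
  intro S hS S' hS' h
  rw [Finset.mem_coe, Finset.mem_filter] at hS hS'
  have e1 : ∀ π ∈ S, PP π := by
    have := hS.1
    unfold SS at this
    exact (Finset.mem_filter.1 this).2.1.1
  have e2 : ∀ π ∈ S', PP π := by
    have := hS'.1
    unfold SS at this
    exact (Finset.mem_filter.1 this).2.1.1
  rw [← (PS_prod e1).2, ← (PS_prod e2).2]
  exact congrArg PD h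

theorem card_el (r : Finset ℕ) (X : ℕ) : {D : ZI | nrm D ≤ X ∧ El r D}.ncard = (SS r X).card := by
  have h := card_eq r X (fun _ => True)
  rw [Finset.filter_true] at h
  rw [← h]
  congr 1
  ext D
  simp only [Set.mem_ofPred_eq, and_true]

/-- the additive and the multiplicative form of a sum of symbols -/
theorem sum_cs {π : ZI} (hπ : PP π) {T : Finset ZI} (hT : ∀ ρ ∈ T, PP ρ) (hn : π ∉ T) :
    (∑ ρ ∈ T, cs π ρ = 0 ↔ qr π (∏ ρ ∈ T, ρ) = 1) := by
  have h1 : ((qr π (∏ ρ ∈ T, ρ) : ℤ) : ℂ) = ez (∑ ρ ∈ T, cs π ρ) := by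
    rw [ez_sum, ← jac_prime hπ, jac_prod hπ.ne]
    push_cast
    refine Finset.prod_congr rfl fun ρ hρ => ?_
    rw [jac_prime hπ, ez_cs]
    intro hd
    have := hπ.eq_of_dvd (hT ρ hρ) hd
    exact hn (this ▸ hρ)
  rcases z2 (∑ ρ ∈ T, cs π ρ) with h | h
  · rw [h, ez_zero] at h1
    have h2 : qr π (∏ ρ ∈ T, ρ) = 1 := by exact_mod_cast h1
    exact ⟨fun _ => h2, fun _ => h⟩
  · rw [h, ez_one] at h1
    have h2 : qr π (∏ ρ ∈ T, ρ) = -1 := by exact_mod_cast h1
    rw [h, h2]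
    constructor
    · intro h3
      exact absurd h3 (by decide)
    · intro h3
      exact absurd h3 (by decide)

/-- the terms of the Laplacian -/
theorem sol_sum (S : Finset ZI) (v : ZI → ZMod 2) (π : ZI) :
    ∑ ρ ∈ S, cs π ρ * (v ρ - v π) = ∑ ρ ∈ S.filter (fun ρ => v ρ ≠ v π), cs π ρ := by
  rw [Finset.sum_filter]
  refine Finset.sum_congr rfl fun ρ _ => ?_
  have key : ∀ a b c : ZMod 2, a * (b - c) = if b ≠ c then a else 0 := by decide
  exact key _ _ _

/-- **the criterion**: the Laplacian has only constant kernel vectors exactly if there is no nontrivial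
factorisation `D = d d'` with all symbols equal to `1` -/
theorem gd_iff {D : ZI} (hD : PS D) : Gd (PD D) ↔
    ∀ d d' : ZI, Pool.Agent.H304R2.EC.A1.prim d → Pool.Agent.H304R2.EC.A1.prim d' → D = d * d' →
      (∀ π ∈ PD d, qr π d' = 1) → (∀ π ∈ PD d', qr π d = 1) → d = 1 ∨ d' = 1 := by
  constructor
  · intro h d d' hd hd' hdd h1 h2
    have hPd : PS d := hD.of_dvd hd ⟨d', hdd⟩
    have hPd' : PS d' := hD.of_dvd hd' ⟨d, by rw [hdd, mul_comm]⟩
    have hcop : IsCoprime d d' := by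
      have hsq := hD.sqf
      rw [hdd] at hsq
      exact (squarefree_mul_iff.1 hsq).1.isCoprime
    have hU : PD D = PD d ∪ PD d' := by
      rw [hdd, Pool.Agent.Y699.PD_mul hPd.ne hPd'.ne]
    have hdis : Disjoint (PD d) (PD d') := Pool.Agent.Y699.PD_disj hPd.ne hPd'.ne hcop
    set v : ZI → ZMod 2 := fun ρ => if ρ ∈ PD d then 1 else 0 with hv
    have hv1 : ∀ ρ ∈ PD d, v ρ = 1 := fun ρ hρ => by rw [hv]; exact if_pos hρ
    have hv0 : ∀ ρ ∈ PD d', v ρ = 0 := fun ρ hρ => by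
      rw [hv]
      exact if_neg fun h' => (Finset.disjoint_left.1 hdis) h' hρ
    have hp1 : ∀ π ∈ PD d, PP π := fun π hπ => ((mem_PD hPd.ne).1 hπ).1
    have hp0 : ∀ π ∈ PD d', PP π := fun π hπ => ((mem_PD hPd'.ne).1 hπ).1
    have hsol : Sol (PD D) v := by
      intro π hπ
      rw [sol_sum, hU]
      rw [hU, Finset.mem_union] at hπ
      rcases hπ with hπ | hπ
      · have e : (PD d ∪ PD d').filter (fun ρ => v ρ ≠ v π) = PD d' := by
          ext ρ
          rw [Finset.mem_filter, Finset.mem_union, hv1 π hπ]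
          constructor
          · rintro ⟨h3 | h3, h4⟩
            · exact absurd (hv1 ρ h3) h4
            · exact h3
          · intro h3
            refine ⟨Or.inr h3, ?_⟩
            rw [hv0 ρ h3]
            decide
        rw [e, sum_cs (hp1 π hπ) hp0 (fun h' => (Finset.disjoint_left.1 hdis) hπ h'), hPd'.prod]
        exact h1 π hπ
      · have e : (PD d ∪ PD d').filter (fun ρ => v ρ ≠ v π) = PD d := by
          ext ρ
          rw [Finset.mem_filter, Finset.mem_union, hv0 π hπ]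
          constructor
          · rintro ⟨h3 | h3, h4⟩
            · exact h3
            · exact absurd (hv0 ρ h3) h4
          · intro h3
            refine ⟨Or.inl h3, ?_⟩
            rw [hv1 ρ h3]
            decide
        rw [e, sum_cs (hp0 π hπ) hp1 (fun h' => (Finset.disjoint_left.1 hdis) h' hπ), hPd.prod]
        exact h2 π hπ
    have hc := h v hsol
    by_cases he : (PD d).Nonempty
    · obtain ⟨π, hπ⟩ := he
      right
      have he' : PD d' = ∅ := by
        rw [Finset.eq_empty_iff_forall_notMem]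
        intro ρ hρ
        have h3 := hc π (by rw [hU]; exact Finset.mem_union_left _ hπ) ρ
          (by rw [hU]; exact Finset.mem_union_right _ hρ)
        rw [hv1 π hπ, hv0 ρ hρ] at h3
        exact absurd h3 (by decide)
      have h3 := hPd'.prod
      rw [he', Finset.prod_empty] at h3
      exact h3.symm
    · left
      rw [Finset.not_nonempty_iff_eq_empty] at he
      have h3 := hPd.prod
      rw [he, Finset.prod_empty] at h3
      exact h3.symm
  · intro h v hv π hπ ρ hρ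
    have hp : ∀ π ∈ PD D, PP π := fun π hπ => ((mem_PD hD.ne).1 hπ).1
    set S1 := (PD D).filter (fun ρ => v ρ = v π) with hS1
    set S0 := (PD D).filter (fun ρ => ¬ v ρ = v π) with hS0
    have q1 : ∀ σ ∈ S1, PP σ := fun σ hσ => hp σ (Finset.mem_filter.1 hσ).1
    have q0 : ∀ σ ∈ S0, PP σ := fun σ hσ => hp σ (Finset.mem_filter.1 hσ).1
    obtain ⟨p1, r1⟩ := PS_prod q1
    obtain ⟨p0, r0⟩ := PS_prod q0
    have hdd : D = (∏ σ ∈ S1, σ) * ∏ σ ∈ S0, σ := by
      rw [hS1, hS0, Finset.prod_filter_mul_prod_filter_not]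
      exact hD.prod.symm
    have h01 : ∀ a b c : ZMod 2, a ≠ b → (c ≠ a ↔ c = b) := by decide
    have k1 : ∀ σ ∈ PD (∏ σ ∈ S1, σ), qr σ (∏ σ ∈ S0, σ) = 1 := by
      intro σ hσ
      rw [r1] at hσ
      have hσ' := Finset.mem_filter.1 hσ
      rw [← sum_cs (q1 σ hσ) q0 (fun h' => (Finset.mem_filter.1 h').2 hσ'.2)]
      have h2 := hv σ hσ'.1
      rw [sol_sum, hσ'.2] at h2
      exact h2
    have k0 : ∀ σ ∈ PD (∏ σ ∈ S0, σ), qr σ (∏ σ ∈ S1, σ) = 1 := by
      intro σ hσ
      rw [r0] at hσ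
      have hσ' := Finset.mem_filter.1 hσ
      rw [← sum_cs (q0 σ hσ) q1 (fun h' => hσ'.2 (Finset.mem_filter.1 h').2)]
      have h2 := hv σ hσ'.1
      rw [sol_sum] at h2
      rw [← h2]
      refine Finset.sum_congr ?_ fun _ _ => rfl
      rw [hS1]
      ext τ
      rw [Finset.mem_filter, Finset.mem_filter]
      exact and_congr_right fun _ => (h01 _ _ _ hσ'.2).symm
    rcases h _ _ p1.prm p0.prm hdd k1 k0 with h3 | h3
    · exfalso
      rw [h3, Pool.Agent.Y699.PD_one] at r1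
      have : π ∈ S1 := Finset.mem_filter.2 ⟨hπ, rfl⟩
      rw [← r1] at this
      exact Finset.notMem_empty _ this
    · rw [h3, Pool.Agent.Y699.PD_one] at r0
      by_contra hne
      have : ρ ∈ S0 := Finset.mem_filter.2 ⟨hρ, fun h4 => hne h4.symm⟩
      rw [← r0] at this
      exact Finset.notMem_empty _ this

theorem nrm_int (D : ZI) : ((nrm D : ℕ) : ℤ) = D.norm := Pool.Agent.Y699.nrm_cast D

theorem el5 {D : ZI} : El {5, 13} D ↔ PS D ∧ D.norm % 8 = 5 := by
  unfold El
  rw [← nrm_int]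
  refine and_congr_right fun _ => ?_
  rw [Finset.mem_insert, Finset.mem_singleton]
  omega

theorem el13 {D : ZI} : El {13} D ↔ PS D ∧ D.norm % 16 = 13 := by
  unfold El
  rw [← nrm_int]
  refine and_congr_right fun _ => ?_
  rw [Finset.mem_singleton]
  omega

theorem good_iff {D : ZI} : Good D ↔ El {5, 13} D ∧ Gd (PD D) := by
  constructor
  · intro h
    exact ⟨el5.2 ⟨h.ps, h.five⟩, (gd_iff h.ps).2 h.ker⟩
  · rintro ⟨h1, h2⟩
    have h3 := el5.1 h1
    exact ⟨h3.1, h3.2, (gd_iff h3.1).1 h2⟩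

theorem good4_iff {D : ZI} : Good4 D ↔ El {13} D ∧ Gd (PD D) := by
  constructor
  · intro h
    exact ⟨el13.2 ⟨h.ps, h.nm⟩, (gd_iff h.ps).2 h.ker⟩
  · rintro ⟨h1, h2⟩
    have h3 := el13.1 h1
    exact ⟨h3.1, h3.2, (gd_iff h3.1).1 h2⟩

theorem fin_nrm (X : ℕ) (P : ZI → Prop) : {D : ZI | nrm D ≤ X ∧ P D}.Finite :=
  (Pool.Agent.Y699.fin_norm_le X).subset fun _ h => h.1

theorem low5 : S_LOW {5, 13} := by
  obtain ⟨c, hc, X₀, h⟩ := Pool.Agent.Y699.positive
  refine ⟨c, X₀, hc, fun X hX => (h X hX).trans ?_⟩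
  rw [← card_el]
  have h1 : ((GB X : Finset ZI) : Set ZI) ⊆ {D : ZI | nrm D ≤ X ∧ El {5, 13} D} := by
    intro D hD
    have h2 : D ∈ SB X ∧ Good D := by
      have h0 := Finset.mem_coe.1 hD
      unfold GB at h0
      exact Finset.mem_filter.1 h0
    exact ⟨(mem_SB.1 h2.1).1, (good_iff.1 h2.2).1⟩
  have h5 := Set.ncard_le_ncard h1 (fin_nrm X _)
  rw [Set.ncard_coe_finset] at h5
  exact_mod_cast h5

theorem low13 : S_LOW {13} := by
  obtain ⟨c, hc, X₀, h⟩ := Pool.Agent.Y699.positive₄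
  refine ⟨c, X₀, hc, fun X hX => (h X hX).trans ?_⟩
  rw [← card_el]
  have h1 : ((GB₄ X : Finset ZI) : Set ZI) ⊆ {D : ZI | nrm D ≤ X ∧ El {13} D} := by
    intro D hD
    have h2 : D ∈ SB X ∧ Good4 D := by
      have h0 := Finset.mem_coe.1 hD
      unfold GB₄ at h0
      exact Finset.mem_filter.1 h0
    exact ⟨(mem_SB.1 h2.1).1, (good4_iff.1 h2.2).1⟩
  have h5 := Set.ncard_le_ncard h1 (fin_nrm X _)
  rw [Set.ncard_coe_finset] at h5
  exact_mod_cast h5

end Pool.Agent.U695.XG.NSf
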