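import Pool.Agent.U695.XG.Asy
import Pool.Agent.U695.XG.BIL
import Pool.Agent.U695.XG.EQ
import Pool.Agent.U695.XG.LAb
import Pool.Agent.U695.XG.BOX
import Pool.Agent.U695.XG.Key3
import Pool.Agent.U695.XG.CNT
import Pool.Agent.U695.XG.Few
import Pool.Agent.U695.XG.NS
import Pool.Agent.Y839.CQ.SYM
import Pool.Agent.Y948.CQ.C2

/-!
# XG: the exact proportion of the good `D` over the Gaussian integers

A transport to `ℤ[i]` and the quadratic symbols of the library project XK (`Pool/Agent/Y703/XK` and the
files named there, by helpers 363, 710, 804, 528, 85, 688, 697, 474, 433, 550, 703, for the cubic symbols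
of `ℤ[ω]`), on the library `Pool/Agent/Y699` of helper699; the number of nonsingular symmetric matrices and the
infinite product are from the library project CQ (`Pool/Agent/Y839/CQ/SYM`, `Pool/Agent/Y948/CQ/C2`).
-/

set_option autoImplicit false

open scoped Classical

namespace Pool.Agent.U695.XG

theorem t_KEY (r : Finset ℕ) : S_KEY r := fun hB1 hE hL hB =>
  KEYf.t_KEG hB1 (G := Gd) (cc := c2) (B := 2) (hB hE hL) (by norm_num)

theorem t_C2 : S_C2 := Pool.Agent.Y948.CQ.t_C2

theorem t_SYM : S_SYM := Pool.Agent.Y839.CQ.t_SYM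

/-- **the exact proportion over `ℚ(i)`**, for every class of positive density -/
theorem t_DQ : S_DQ := fun r hr =>
  t_DQr BILf.t_BIL EQf.t_EQ (LA.t_LA t_SYM t_C2) BOXf.t_BOX (t_KEY r) CNTf.t_CNT FEWf.t_BAD
    FEWf.t_FEW hr t_C2

/-- norms that are `5` modulo `8` -/
theorem den5 : Filter.Tendsto (fun X : ℕ => (((SS {5, 13} X).filter Gd).card : ℝ) /
    ((SS {5, 13} X).card : ℝ)) Filter.atTop (nhds c2) := t_DQ _ NSf.low5

/-- norms that are `13` modulo `16` -/
theorem den13 : Filter.Tendsto (fun X : ℕ => (((SS {13} X).filter Gd).card : ℝ) /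
    ((SS {13} X).card : ℝ)) Filter.atTop (nhds c2) := t_DQ _ NSf.low13

end Pool.Agent.U695.XG
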