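import Pool.Agent.U695.XG.Mob
import Pool.Agent.U695.XG.Fin

/-!
# XG: the share of the classes among all squarefree Gaussian integers
-/

set_option autoImplicit false
set_option linter.all false

open scoped Classical

namespace Pool.Agent.U695.XG.Dn

open Finset Filter
open H385 (ZI im1 nrm)
open Pool.Agent.H304R2.EC.A1 (prim prim_mul prim_cancel prim_one prim_norm_odd eq_one_of_prim
  prim_ne_zero)
open Pool.Agent.Y699 (PP PD mem_PD PS PS_prod SB mem_SB PB mem_PB ZB mem_ZB nrm_mul nrm_pos'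
  nrm_eq' norm_le_of_dvd exists_PP odd_of_dvd card_SB_le hsum_SB lg one_le_lg lg_le_log lg_mono)
open Pool.Agent.U695.XG Pool.Agent.U695.XG.Mob

theorem Er_nonneg (X : ℕ) : 0 ≤ Er X := by
  unfold Er
  have := one_le_lg X
  have h : 0 ≤ lg X := by linarith
  positivity

theorem Er_le {X : ℕ} (hX : 2 ≤ X) : Er X / X ≤ 38880 * (X : ℝ) ^ (-(1 / 4) : ℝ) := by
  have hX0 : (0 : ℝ) < X := by exact_mod_cast (by omega : 0 < X)
  have h1 := one_le_lg X
  have h2 := lg_le_log hX
  have h3 : Real.log X ≤ 4 * (X : ℝ) ^ (1 / 4 : ℝ) := by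
    have := Real.log_le_rpow_div hX0.le (show (0 : ℝ) < 1 / 4 by norm_num)
    linarith
  have h4 : 0 ≤ Real.sqrt X := Real.sqrt_nonneg _
  have h5 : Er X ≤ 38880 * (Real.sqrt X * (X : ℝ) ^ (1 / 4 : ℝ)) := by
    unfold Er
    have h6 : lg X ≤ 12 * (X : ℝ) ^ (1 / 4 : ℝ) := by linarith
    have h7 : 2 * Real.sqrt X * (18 * lg X) + 9 * Real.sqrt X ≤ 45 * (Real.sqrt X * lg X) := by
      nlinarith
    have h8 : Real.sqrt X * lg X ≤ Real.sqrt X * (12 * (X : ℝ) ^ (1 / 4 : ℝ)) :=
      mul_le_mul_of_nonneg_left h6 h4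
    nlinarith
  rw [div_le_iff₀ hX0]
  refine h5.trans (le_of_eq ?_)
  rw [mul_assoc]
  congr 1
  rw [Real.sqrt_eq_rpow, ← Real.rpow_add hX0]
  nth_rewrite 3 [← Real.rpow_one (X : ℝ)]
  rw [← Real.rpow_add hX0]
  norm_num

theorem Er_tendsto : Tendsto (fun X : ℕ => Er X / X) atTop (nhds 0) := by
  have h1 : Tendsto (fun X : ℕ => 38880 * (X : ℝ) ^ (-(1 / 4) : ℝ)) atTop (nhds 0) := by
    have h2 := (tendsto_rpow_neg_atTop (show (0 : ℝ) < 1 / 4 by norm_num)).comp
      tendsto_natCast_atTop_atTop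
    have h3 := h2.const_mul 38880
    rw [mul_zero] at h3
    exact h3
  refine squeeze_zero' ?_ ?_ h1
  · filter_upwards with X
    exact div_nonneg (Er_nonneg X) (Nat.cast_nonneg X)
  · filter_upwards [eventually_ge_atTop 2] with X hX
    exact Er_le hX

/-- the squarefree primary elements of a class -/
noncomputable def Sc (c X : ℕ) : Finset ZI := (SB X).filter fun n => nrm n % 16 = c

theorem Sc_bound {c : ℕ} (hc : c = 1 ∨ c = 5 ∨ c = 9 ∨ c = 13) {X : ℕ} (hX : 1 ≤ X) :
    |((Sc c X).card : ℝ) - ((SB X).card : ℝ) / 4| ≤ Er X / 4 := by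
  have h1 := class_sum (c := (c : ℤ)) (by rcases hc with rfl | rfl | rfl | rfl <;> norm_num) hX
  have h2 : ∑ n ∈ SB X, Fc c n = 4 * ((Sc c X).card : ℝ) - ((SB X).card : ℝ) := by
    have e1 : ∀ n ∈ SB X, Fc c n = (if nrm n % 16 = c then (4 : ℝ) else 0) - 1 := by
      intro n hn
      rw [mem_SB] at hn
      rw [Fc_prim hn.2.prm]
      have e2 : (((nrm n : ℕ) : ℤ) % 16 = (c : ℤ)) ↔ nrm n % 16 = c := by
        constructor
        · intro h
          exact_mod_cast h
        · intro h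
          exact_mod_cast h
      by_cases h : nrm n % 16 = c
      · rw [if_pos h, if_pos (e2.2 h)]
        norm_num
      · rw [if_neg h, if_neg (fun h' => h (e2.1 h'))]
        norm_num
    rw [Finset.sum_congr rfl e1, Finset.sum_sub_distrib, ← Finset.sum_filter, Finset.sum_const,
      Finset.sum_const, nsmul_eq_mul, nsmul_eq_mul, mul_one]
    unfold Sc
    ring
  rw [h2] at h1
  have h3 : ((Sc c X).card : ℝ) - ((SB X).card : ℝ) / 4 =
      (4 * ((Sc c X).card : ℝ) - ((SB X).card : ℝ)) / 4 := by ring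
  rw [h3, abs_div, abs_of_pos (by norm_num : (0 : ℝ) < 4), div_le_div_iff_of_pos_right (by norm_num)]
  exact h1

theorem SS_card (r : Finset ℕ) (X : ℕ) :
    (SS r X).card = ((SB X).filter fun n => nrm n % 16 ∈ r).card := by
  rw [← NSf.card_el]
  have h1 : {D : ZI | nrm D ≤ X ∧ NSf.El r D} =
      (((SB X).filter fun n => nrm n % 16 ∈ r : Finset ZI) : Set ZI) := by
    ext D
    rw [Finset.mem_coe, Finset.mem_filter, mem_SB]
    constructor
    · rintro ⟨h1, h2, h3⟩
      exact ⟨⟨h1, h2⟩, h3⟩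
    · rintro ⟨⟨h1, h2⟩, h3⟩
      exact ⟨h1, h2, h3⟩
  rw [h1, Set.ncard_coe_finset]

theorem SS13 {X : ℕ} (hX : 1 ≤ X) :
    |((SS {13} X).card : ℝ) - (1 / 4) * ((SB X).card : ℝ)| ≤ Er X := by
  have h1 := Sc_bound (c := 13) (by norm_num) hX
  have h2 : (SS {13} X).card = (Sc 13 X).card := by
    rw [SS_card]
    unfold Sc
    congr 1
    ext n
    rw [Finset.mem_filter, Finset.mem_filter, Finset.mem_singleton]
  have h3 := Er_nonneg X
  rw [h2]
  have e : ((Sc 13 X).card : ℝ) - (1 / 4) * ((SB X).card : ℝ) =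
    ((Sc 13 X).card : ℝ) - ((SB X).card : ℝ) / 4 := by ring
  rw [e]
  linarith

theorem SS5 {X : ℕ} (hX : 1 ≤ X) :
    |((SS {5, 13} X).card : ℝ) - (1 / 2) * ((SB X).card : ℝ)| ≤ Er X := by
  have h1 := Sc_bound (c := 5) (by norm_num) hX
  have h1' := Sc_bound (c := 13) (by norm_num) hX
  have h2 : (SS {5, 13} X).card = (Sc 5 X).card + (Sc 13 X).card := by
    rw [SS_card]
    unfold Sc
    rw [← Finset.card_union_of_disjoint]
    · congr 1
      ext n
      rw [Finset.mem_filter, Finset.mem_union, Finset.mem_filter, Finset.mem_filter,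
        Finset.mem_insert, Finset.mem_singleton]
      tauto
    · rw [Finset.disjoint_left]
      intro n h3 h4
      rw [Finset.mem_filter] at h3 h4
      omega
  have h3 := Er_nonneg X
  rw [h2]
  push_cast
  rw [abs_le] at h1 h1' ⊢
  constructor <;> linarith [h1.1, h1.2, h1'.1, h1'.2]

/-- all squarefree Gaussian integers -/
def Sq (X : ℕ) : Set ZI := {D | Squarefree D ∧ nrm D ≤ X}

/-- those of odd norm -/
def Od (X : ℕ) : Set ZI := {D | Squarefree D ∧ nrm D % 2 = 1 ∧ nrm D ≤ X}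

theorem im1_norm (k : ℕ) : nrm (im1 ^ k) = 1 := by
  induction k with
  | zero => decide
  | succ k ih => rw [pow_succ, nrm_mul, ih]; decide

theorem im1_unit : IsUnit (im1 : ZI) := ⟨⟨im1, -im1, by decide, by decide⟩, rfl⟩

theorem nrm_odd {n : ZI} (h : prim n) : nrm n % 2 = 1 := by
  have h1 := prim_norm_odd h
  have h2 := Pool.Agent.Y699.nrm_cast n
  omega

theorem card_Od (X : ℕ) : (Od X).ncard = 4 * (SB X).card := by
  have h1 : Od X = (((range 4 ×ˢ SB X).image fun p : ℕ × ZI => im1 ^ p.1 * p.2 : Finset ZI) :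
      Set ZI) := by
    ext D
    rw [Finset.mem_coe, Finset.mem_image]
    constructor
    · rintro ⟨h1, h2, h3⟩
      have h4 : D.norm % 2 = 1 := by
        have := Pool.Agent.Y699.nrm_cast D
        omega
      obtain ⟨u, hu⟩ := Pool.Agent.Y699.exists_Um h4
      have hu1 : u * star u = 1 := Pool.Agent.Y699.unit_mul_star hu.1
      have hs : (star u).norm = 1 := by rw [Zsqrtd.norm_conj]; exact hu.1
      obtain ⟨k, hk, hk2⟩ : ∃ k, k < 4 ∧ star u = im1 ^ k := by
        rcases Pool.Agent.W164.RC.unit_cases hs with h | h | h | h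
        · exact ⟨0, by norm_num, by rw [h, pow_zero]⟩
        · exact ⟨1, by norm_num, by rw [h, pow_one]⟩
        · exact ⟨2, by norm_num, h⟩
        · exact ⟨3, by norm_num, h⟩
      refine ⟨(k, u * D), ?_, ?_⟩
      · rw [Finset.mem_product, Finset.mem_range, mem_SB]
        refine ⟨hk, ?_, hu.2, ?_⟩
        · have h5 : nrm u = 1 := by
            have := Pool.Agent.Y699.nrm_cast u
            rw [hu.1] at this
            exact_mod_cast this
          show nrm (u * D) ≤ X
          rw [nrm_mul, h5, one_mul]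
          exact h3
        · have h6 : IsUnit u := IsUnit.of_mul_eq_one _ hu1
          exact squarefree_mul_iff.2 ⟨h6.isRelPrime_left, h6.squarefree, h1⟩
      · show im1 ^ k * (u * D) = D
        rw [← hk2, ← mul_assoc, mul_comm (star u) u, hu1, one_mul]
    · rintro ⟨⟨k, n⟩, hp, rfl⟩
      rw [Finset.mem_product, mem_SB] at hp
      obtain ⟨-, h2, h3⟩ := hp
      have h4 : nrm (im1 ^ k * n) = nrm n := by rw [nrm_mul, im1_norm, one_mul]
      have h5 : IsUnit ((im1 : ZI) ^ k) := im1_unit.pow k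
      refine ⟨squarefree_mul_iff.2 ⟨h5.isRelPrime_left, h5.squarefree, h3.sqf⟩, ?_, ?_⟩
      · show nrm (im1 ^ k * n) % 2 = 1
        rw [h4]
        exact nrm_odd h3.prm
      · show nrm (im1 ^ k * n) ≤ X
        rw [h4]
        exact h2
  rw [h1, Set.ncard_coe_finset, Finset.card_image_of_injOn, Finset.card_product, Finset.card_range]
  rintro ⟨k, n⟩ h2 ⟨l, n'⟩ h3 h
  rw [Finset.mem_coe, Finset.mem_product, Finset.mem_range, mem_SB] at h2 h3
  simp only at h2 h3 h
  obtain ⟨hk, -, hn⟩ := h2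
  obtain ⟨hl, -, hn'⟩ := h3
  have h4 : (im1 : ZI) ^ 4 = 1 := H385.he2_im4
  have h5 : n = n' * im1 ^ (l + (4 - k)) := by
    have h6 : im1 ^ (4 - k) * (im1 ^ k * n) = im1 ^ (4 - k) * (im1 ^ l * n') := by rw [h]
    rw [← mul_assoc, ← pow_add, Nat.sub_add_cancel hk.le, h4, one_mul] at h6
    rw [h6, pow_add]
    ring
  have h6 : prim (im1 ^ (l + (4 - k))) := prim_cancel hn'.prm (by rw [← h5]; exact hn.prm)
  have h7 : (im1 ^ (l + (4 - k)) : ZI).norm = 1 := by
    have := Pool.Agent.Y699.nrm_cast (im1 ^ (l + (4 - k)) : ZI)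
    rw [im1_norm] at this
    exact_mod_cast this.symm
  have h8 := eq_one_of_prim h6 h7
  rw [h8, mul_one] at h5
  have h9 : k = l := by
    have key : ∀ k < 4, ∀ l < 4, (im1 : ZI) ^ (l + (4 - k)) = 1 → k = l := by decide
    exact key k hk l hl h8
  rw [h5, h9]

theorem two_eq : (1 + im1) * (1 + im1) = (⟨0, 2⟩ : ZI) := by decide

/-- even norm -/
theorem dvd_even {D : ZI} (h : nrm D % 2 = 0) : (1 + im1) ∣ D := by
  have h1 : (nrm D : ℤ) = D.re ^ 2 + D.im ^ 2 := nrm_eq' D
  have h2 : (D.re + D.im) % 2 = 0 := by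
    have h3 : (D.re + D.im) % 2 = (D.re ^ 2 + D.im ^ 2) % 2 := by
      have e : ∀ x : ℤ, x ^ 2 % 2 = x % 2 := by
        intro x
        rcases Int.emod_two_eq_zero_or_one x with h | h <;> rw [pow_two, Int.mul_emod, h] <;> rfl
      rw [Int.add_emod, Int.add_emod (D.re ^ 2), e, e]
    rw [h3, ← h1]
    omega
  refine ⟨⟨(D.re + D.im) / 2, (D.im - D.re) / 2⟩, ?_⟩
  have e1 : (1 + im1 : ZI) = ⟨1, 1⟩ := by decide
  rw [e1]
  ext
  · simp
    omega
  · simp
    omega

theorem prime_one_add : Prime (1 + im1 : ZI) := by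
  rw [← irreducible_iff_prime]
  constructor
  · intro h
    obtain ⟨u, hu⟩ := h
    have h1 := unit_norm_one u
    rw [hu] at h1
    exact absurd h1 (by decide)
  · intro a b hab
    have h1 := congrArg nrm hab
    rw [nrm_mul, nrm_one_add] at h1
    have h2 : nrm a = 1 ∨ nrm b = 1 := by
      have h3 : nrm a ∣ 2 := ⟨_, h1⟩
      rcases (Nat.dvd_prime Nat.prime_two).1 h3 with h4 | h4
      · exact Or.inl h4
      · right
        rw [h4] at h1
        omega
    have key : ∀ x : ZI, nrm x = 1 → IsUnit x := by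
      intro x hx
      exact Zsqrtd.norm_eq_one_iff.1 hx
    rcases h2 with h | h
    · exact Or.inl (key a h)
    · exact Or.inr (key b h)
where
  unit_norm_one (u : ZIˣ) : nrm (u : ZI) = 1 := by
    have := Pool.Agent.W164.RC.unit_norm u
    have h2 := Pool.Agent.Y699.nrm_cast (u : ZI)
    rw [this] at h2
    exact_mod_cast h2

theorem sqf_one_add {D : ZI} (h : Squarefree D) (h1 : nrm D % 2 = 1) : Squarefree ((1 + im1) * D) := by
  rw [squarefree_mul_iff]
  refine ⟨?_, prime_one_add.irreducible.squarefree, h⟩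
  rw [prime_one_add.irreducible.isRelPrime_iff_not_dvd]
  rintro ⟨c, rfl⟩
  rw [nrm_mul, nrm_one_add] at h1
  omega

theorem card_Sq (X : ℕ) : (Sq X).ncard = 4 * (SB X).card + 4 * (SB (X / 2)).card := by
  have hfin : ∀ Y, (Od Y).Finite := fun Y =>
    (Pool.Agent.Y699.fin_norm_le Y).subset fun _ h => h.2.2
  have h1 : Sq X = Od X ∪ (fun D => (1 + im1) * D) '' Od (X / 2) := by
    ext D
    constructor
    · rintro ⟨h1, h2⟩
      rcases Nat.mod_two_eq_zero_or_one (nrm D) with h | h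
      · right
        obtain ⟨c, rfl⟩ := dvd_even h
        refine ⟨c, ⟨(squarefree_mul_iff.1 h1).2.2, ?_, ?_⟩, rfl⟩
        · by_contra hc
          obtain ⟨c', rfl⟩ := dvd_even (show nrm c % 2 = 0 by omega)
          exact prime_one_add.not_unit (h1 (1 + im1) ⟨c', by ring⟩)
        · rw [nrm_mul, nrm_one_add] at h2
          omega
      · exact Or.inl ⟨h1, h, h2⟩
    · rintro (⟨h1, -, h3⟩ | ⟨c, ⟨h1, h2, h3⟩, rfl⟩)
      · exact ⟨h1, h3⟩
      · refine ⟨sqf_one_add h1 h2, ?_⟩
        show nrm ((1 + im1) * c) ≤ X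
        rw [nrm_mul, nrm_one_add]
        omega
  have h2 : Disjoint (Od X) ((fun D => (1 + im1) * D) '' Od (X / 2)) := by
    rw [Set.disjoint_left]
    rintro D ⟨-, h3, -⟩ ⟨c, -, rfl⟩
    simp only [nrm_mul, nrm_one_add] at h3
    omega
  rw [h1, Set.ncard_union_eq h2 (hfin X) ((hfin _).image _), card_Od,
    Set.ncard_image_of_injective, card_Od]
  intro a b hab
  exact mul_left_cancel₀ (by decide) hab

theorem Sq_finite (X : ℕ) : (Sq X).Finite :=
  (Pool.Agent.Y699.fin_norm_le X).subset fun _ h => h.2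

/-- the number of squarefree primary elements -/
theorem SB_low : ∃ c : ℝ, 0 < c ∧ ∀ᶠ X : ℕ in atTop, c * X ≤ ((SB X).card : ℝ) := by
  obtain ⟨c, X₀, hc, h⟩ := NSf.low5
  refine ⟨c, hc, ?_⟩
  filter_upwards [eventually_ge_atTop X₀] with X hX
  refine (h X hX).trans ?_
  rw [SS_card]
  exact_mod_cast Finset.card_filter_le _ _

theorem ratio_aux {s : ℕ → ℝ} {κ : ℝ} (h : ∀ X : ℕ, 1 ≤ X → |s X - κ * ((SB X).card : ℝ)| ≤ Er X) :
    Tendsto (fun X : ℕ => s X / ((SB X).card : ℝ)) atTop (nhds κ) := by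
  obtain ⟨c, hc, hlow⟩ := SB_low
  rw [tendsto_iff_norm_sub_tendsto_zero]
  have h1 : Tendsto (fun X : ℕ => (1 / c) * (Er X / X)) atTop (nhds 0) := by
    have := Er_tendsto.const_mul (1 / c)
    rwa [mul_zero] at this
  refine squeeze_zero' ?_ ?_ h1
  · filter_upwards with X
    exact norm_nonneg _
  · filter_upwards [hlow, eventually_ge_atTop 1] with X hX hX1
    have hX0 : (0 : ℝ) < X := by exact_mod_cast hX1
    have hp : 0 < ((SB X).card : ℝ) := lt_of_lt_of_le (by positivity) hX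
    have e : s X / ((SB X).card : ℝ) - κ = (s X - κ * ((SB X).card : ℝ)) / ((SB X).card : ℝ) := by
      field_simp
    rw [e, norm_div, Real.norm_eq_abs, Real.norm_eq_abs, abs_of_pos hp]
    calc |s X - κ * ((SB X).card : ℝ)| / ((SB X).card : ℝ) ≤ Er X / ((SB X).card : ℝ) :=
          div_le_div_of_nonneg_right (h X hX1) hp.le
      _ ≤ Er X / (c * X) := div_le_div_of_nonneg_left (Er_nonneg X) (by positivity) hX
      _ = (1 / c) * (Er X / X) := by field_simp

theorem Sq_ratio : Tendsto (fun X : ℕ => ((Sq X).ncard : ℝ) / ((SB X).card : ℝ)) atTop (nhds 6) := by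
  have h1 := ratio_aux (s := fun X => ((SB (X / 2)).card : ℝ)) (κ := 1 / 2) (fun X hX => by
    have := half_SB hX
    have e : ((SB (X / 2)).card : ℝ) - 1 / 2 * ((SB X).card : ℝ) =
      ((SB (X / 2)).card : ℝ) - ((SB X).card : ℝ) / 2 := by ring
    show |((SB (X / 2)).card : ℝ) - 1 / 2 * ((SB X).card : ℝ)| ≤ Er X
    rw [e]
    exact this)
  obtain ⟨c, hc, hlow⟩ := SB_low
  have h2 : Tendsto (fun X : ℕ => 4 + 4 * (((SB (X / 2)).card : ℝ) / ((SB X).card : ℝ))) atTop
      (nhds (4 + 4 * (1 / 2))) := (h1.const_mul 4).const_add 4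
  have e : (4 : ℝ) + 4 * (1 / 2) = 6 := by norm_num
  rw [e] at h2
  refine h2.congr' ?_
  filter_upwards [hlow, eventually_ge_atTop 1] with X hX hX1
  have hX0 : (0 : ℝ) < X := by exact_mod_cast hX1
  have hp : 0 < ((SB X).card : ℝ) := lt_of_lt_of_le (by positivity) hX
  rw [card_Sq]
  push_cast
  field_simp

/-- the share of a class among all squarefree elements -/
theorem share {r : Finset ℕ} {κ : ℝ}
    (h : ∀ X : ℕ, 1 ≤ X → |((SS r X).card : ℝ) - κ * ((SB X).card : ℝ)| ≤ Er X) :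
    Tendsto (fun X : ℕ => ((SS r X).card : ℝ) / ((Sq X).ncard : ℝ)) atTop (nhds (κ / 6)) := by
  have h1 := (ratio_aux h).div Sq_ratio (by norm_num)
  obtain ⟨c, hc, hlow⟩ := SB_low
  refine h1.congr' ?_
  filter_upwards [hlow, eventually_ge_atTop 1] with X hX hX1
  have hX0 : (0 : ℝ) < X := by exact_mod_cast hX1
  have hp : 0 < ((SB X).card : ℝ) := lt_of_lt_of_le (by positivity) hX
  simp only [Pi.div_apply]
  rw [div_div_div_cancel_right₀ hp.ne']

theorem share5 : Tendsto (fun X : ℕ => ((SS {5, 13} X).card : ℝ) / ((Sq X).ncard : ℝ)) atTop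
    (nhds (1 / 12)) := by
  have := share (r := {5, 13}) (κ := 1 / 2) fun X hX => SS5 hX
  norm_num at this ⊢
  exact this

theorem share13 : Tendsto (fun X : ℕ => ((SS {13} X).card : ℝ) / ((Sq X).ncard : ℝ)) atTop
    (nhds (1 / 24)) := by
  have := share (r := {13}) (κ := 1 / 4) fun X hX => SS13 hX
  norm_num at this ⊢
  exact this

/-- the share of the good elements among all squarefree elements -/
theorem good_share {r : Finset ℕ} {σ : ℝ} (hr : S_LOW r)
    (h : Tendsto (fun X : ℕ => ((SS r X).card : ℝ) / ((Sq X).ncard : ℝ)) atTop (nhds σ)) :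
    Tendsto (fun X : ℕ => (((SS r X).filter Gd).card : ℝ) / ((Sq X).ncard : ℝ)) atTop
      (nhds (c2 * σ)) := by
  have h1 := (t_DQ r hr).mul h
  obtain ⟨c, X₀, hc, hlow⟩ := hr
  refine h1.congr' ?_
  filter_upwards [eventually_ge_atTop X₀, eventually_ge_atTop 1] with X hX hX1
  have hX0 : (0 : ℝ) < X := by exact_mod_cast hX1
  have hp : 0 < ((SS r X).card : ℝ) := lt_of_lt_of_le (by positivity) (hlow X hX)
  rw [div_mul_div_cancel₀ hp.ne']

end Pool.Agent.U695.XG.Dn
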