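import Pool.Agent.U695.XG.Dens
import Pool.Agent.N48.Ann.NT1

/-!
# XG: lattice points, a lower bound for the number of squarefree primary elements, and an upper bound
# for the number of elements without fourth powers
-/

set_option autoImplicit false
set_option linter.all false

open scoped Classical

namespace Pool.Agent.U695.XG.Lt

open Finset Filter
open H385 (ZI im1 nrm)
open Pool.Agent.H304R2.EC.A1 (prim prim_mul prim_cancel prim_one prim_norm_odd eq_one_of_prim
  prim_ne_zero)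
open Pool.Agent.Y699 (PP PD mem_PD PS PS_prod SB mem_SB PB mem_PB ZB mem_ZB nrm_mul nrm_pos'
  nrm_eq' norm_le_of_dvd exists_PP odd_of_dvd card_SB_le hsum_SB hsum lg one_le_lg lg_le_log lg_mono)
open Pool.Agent.U695.XG Pool.Agent.U695.XG.Mob Pool.Agent.U695.XG.Dn
open Pool.Agent.N48.Ann (Qs mem_Qs Qs_asymp)

theorem quad_card (V : ℕ) {s t : ℤ} (hs : s * s = 1) (ht : t * t = 1) :
    ((ZB V).filter fun a => 0 < s * a.re ∧ 0 < t * a.im).card = (Qs V).card := by
  symm
  refine Finset.card_bij (fun p _ => (⟨s * p.1, t * p.2⟩ : ZI)) ?_ ?_ ?_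
  · intro p hp
    rw [mem_Qs] at hp
    rw [mem_filter, mem_ZB]
    have h1 : (nrm (⟨s * p.1, t * p.2⟩ : ZI) : ℤ) = (p.1 : ℤ) ^ 2 + (p.2 : ℤ) ^ 2 := by
      rw [nrm_eq']
      show (s * p.1) ^ 2 + (t * p.2) ^ 2 = _
      linear_combination (p.1 : ℤ) ^ 2 * hs + (p.2 : ℤ) ^ 2 * ht
    refine ⟨?_, ?_, ?_⟩
    · have h2 : ((p.1 : ℤ) ^ 2 + (p.2 : ℤ) ^ 2) ≤ V := by exact_mod_cast hp.2.2
      rw [← h1] at h2
      exact_mod_cast h2
    · show 0 < s * (s * (p.1 : ℤ))
      have h2 : s * (s * (p.1 : ℤ)) = p.1 := by linear_combination (p.1 : ℤ) * hs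
      rw [h2]
      exact_mod_cast hp.1
    · show 0 < t * (t * (p.2 : ℤ))
      have h2 : t * (t * (p.2 : ℤ)) = p.2 := by linear_combination (p.2 : ℤ) * ht
      rw [h2]
      exact_mod_cast hp.2.1
  · intro p hp q hq h
    have h1 := congrArg Zsqrtd.re h
    have h2 := congrArg Zsqrtd.im h
    simp only at h1 h2
    have h3 : (p.1 : ℤ) = q.1 := by
      linear_combination s * h1 - ((p.1 : ℤ) - q.1) * hs
    have h4 : (p.2 : ℤ) = q.2 := by
      linear_combination t * h2 - ((p.2 : ℤ) - q.2) * ht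
    exact Prod.ext (by exact_mod_cast h3) (by exact_mod_cast h4)
  · intro a ha
    rw [mem_filter, mem_ZB] at ha
    obtain ⟨h1, h2, h3⟩ := ha
    refine ⟨((s * a.re).toNat, (t * a.im).toNat), ?_, ?_⟩
    · rw [mem_Qs]
      refine ⟨by omega, by omega, ?_⟩
      have h4 : (((s * a.re).toNat : ℕ) : ℤ) = s * a.re := Int.toNat_of_nonneg h2.le
      have h5 : (((t * a.im).toNat : ℕ) : ℤ) = t * a.im := Int.toNat_of_nonneg h3.le
      have h6 : (((s * a.re).toNat : ℕ) : ℤ) ^ 2 + (((t * a.im).toNat : ℕ) : ℤ) ^ 2 = (nrm a : ℤ) := by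
        rw [h4, h5, nrm_eq']
        linear_combination a.re ^ 2 * hs + a.im ^ 2 * ht
      have h7 : (nrm a : ℤ) ≤ V := by exact_mod_cast h1
      rw [← h6] at h7
      exact_mod_cast h7
    · have h4 : (((s * a.re).toNat : ℕ) : ℤ) = s * a.re := Int.toNat_of_nonneg h2.le
      have h5 : (((t * a.im).toNat : ℕ) : ℤ) = t * a.im := Int.toNat_of_nonneg h3.le
      ext
      · show s * (((s * a.re).toNat : ℕ) : ℤ) = a.re
        rw [h4]
        linear_combination a.re * hs
      · show t * (((t * a.im).toNat : ℕ) : ℤ) = a.im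
        rw [h5]
        linear_combination a.im * ht

theorem axes_card (V : ℕ) :
    ((ZB V).filter fun a => a.re = 0 ∨ a.im = 0).card ≤ 4 * Nat.sqrt V + 2 := by
  set I := Finset.Icc (-(Nat.sqrt V : ℤ)) (Nat.sqrt V) with hI
  have h1 : ((ZB V).filter fun a => a.re = 0 ∨ a.im = 0) ⊆
      (I.image fun x => (⟨0, x⟩ : ZI)) ∪ (I.image fun x => (⟨x, 0⟩ : ZI)) := by
    intro a ha
    rw [mem_filter, mem_ZB] at ha
    obtain ⟨h1, h2⟩ := ha
    have h3 : (nrm a : ℤ) = a.re ^ 2 + a.im ^ 2 := nrm_eq' a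
    have h4 : (nrm a : ℤ) ≤ V := by exact_mod_cast h1
    have key : ∀ x : ℤ, x ^ 2 ≤ V → x ∈ I := by
      intro x hx
      have h5 : x.natAbs ≤ Nat.sqrt V := by
        rw [Nat.le_sqrt']
        zify
        rw [sq_abs]
        exact hx
      rw [hI, Finset.mem_Icc]
      omega
    rw [Finset.mem_union, Finset.mem_image, Finset.mem_image]
    rcases h2 with h2 | h2
    · left
      refine ⟨a.im, key _ (by nlinarith [sq_nonneg a.re]), ?_⟩
      ext
      · exact h2.symm
      · rfl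
    · right
      refine ⟨a.re, key _ (by nlinarith [sq_nonneg a.im]), ?_⟩
      ext
      · rfl
      · exact h2.symm
  have h2 : I.card = 2 * Nat.sqrt V + 1 := by
    rw [hI, Int.card_Icc]
    omega
  calc _ ≤ _ := Finset.card_le_card h1
    _ ≤ _ := Finset.card_union_le _ _
    _ ≤ I.card + I.card := Nat.add_le_add Finset.card_image_le Finset.card_image_le
    _ = _ := by rw [h2]; ring

theorem ZB_card (V : ℕ) : |((ZB V).card : ℝ) - Real.pi * V| ≤ 20 * Real.sqrt V + 2 := by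
  have h0 : (ZB V).card = 4 * (Qs V).card + ((ZB V).filter fun a => a.re = 0 ∨ a.im = 0).card := by
    have e1 := quad_card V (s := 1) (t := 1) (by norm_num) (by norm_num)
    have e2 := quad_card V (s := 1) (t := -1) (by norm_num) (by norm_num)
    have e3 := quad_card V (s := -1) (t := 1) (by norm_num) (by norm_num)
    have e4 := quad_card V (s := -1) (t := -1) (by norm_num) (by norm_num)
    have hsum : (ZB V).card = ((ZB V).filter fun a => 0 < (1 : ℤ) * a.re ∧ 0 < (1 : ℤ) * a.im).card +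
        ((ZB V).filter fun a => 0 < (1 : ℤ) * a.re ∧ 0 < (-1 : ℤ) * a.im).card +
        ((ZB V).filter fun a => 0 < (-1 : ℤ) * a.re ∧ 0 < (1 : ℤ) * a.im).card +
        ((ZB V).filter fun a => 0 < (-1 : ℤ) * a.re ∧ 0 < (-1 : ℤ) * a.im).card +
        ((ZB V).filter fun a => a.re = 0 ∨ a.im = 0).card := by
      rw [Finset.card_eq_sum_ones (ZB V)]
      simp only [Finset.card_filter]
      rw [← Finset.sum_add_distrib, ← Finset.sum_add_distrib, ← Finset.sum_add_distrib,
        ← Finset.sum_add_distrib]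
      refine Finset.sum_congr rfl fun a _ => ?_
      rcases lt_trichotomy a.re 0 with h1 | h1 | h1 <;> rcases lt_trichotomy a.im 0 with h2 | h2 | h2
      · rw [if_neg (by omega), if_neg (by omega), if_neg (by omega), if_pos (by omega),
          if_neg (by omega)]
      · rw [if_neg (by omega), if_neg (by omega), if_neg (by omega), if_neg (by omega),
          if_pos (by omega)]
      · rw [if_neg (by omega), if_neg (by omega), if_pos (by omega), if_neg (by omega),
          if_neg (by omega)]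
      · rw [if_neg (by omega), if_neg (by omega), if_neg (by omega), if_neg (by omega),
          if_pos (by omega)]
      · rw [if_neg (by omega), if_neg (by omega), if_neg (by omega), if_neg (by omega),
          if_pos (by omega)]
      · rw [if_neg (by omega), if_neg (by omega), if_neg (by omega), if_neg (by omega),
          if_pos (by omega)]
      · rw [if_neg (by omega), if_pos (by omega), if_neg (by omega), if_neg (by omega),
          if_neg (by omega)]
      · rw [if_neg (by omega), if_neg (by omega), if_neg (by omega), if_neg (by omega),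
          if_pos (by omega)]
      · rw [if_pos (by omega), if_neg (by omega), if_neg (by omega), if_neg (by omega),
          if_neg (by omega)]
    rw [hsum, e1, e2, e3, e4]
    ring
  have h1 := abs_le.1 (Qs_asymp V)
  have h2 : (((ZB V).filter fun a => a.re = 0 ∨ a.im = 0).card : ℝ) ≤ 4 * Real.sqrt V + 2 := by
    have h3 : (((ZB V).filter fun a => a.re = 0 ∨ a.im = 0).card : ℝ) ≤
        ((4 * Nat.sqrt V + 2 : ℕ) : ℝ) := by exact_mod_cast axes_card V
    have h4 : ((Nat.sqrt V : ℕ) : ℝ) ≤ Real.sqrt V := Real.nat_sqrt_le_real_sqrt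
    push_cast at h3
    linarith
  have h3 : (0 : ℝ) ≤ (((ZB V).filter fun a => a.re = 0 ∨ a.im = 0).card : ℝ) := Nat.cast_nonneg _
  have h4 : (0 : ℝ) ≤ Real.sqrt V := Real.sqrt_nonneg _
  rw [h0]
  push_cast
  rw [abs_le]
  constructor <;> linarith [h1.1, h1.2]

def wp (x y : ℤ) : ℤ := if y % 2 = 0 ∧ (x + y) % 4 = 1 then 7 else -1

theorem wp_x (x y : ℤ) : wp (x + 8) y = wp x y := by
  unfold wp
  have e1 : (x + 8 + y) % 4 = (x + y) % 4 := by omega
  rw [e1]

theorem wp_y (x y : ℤ) : wp x (y + 8) = wp x y := by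
  unfold wp
  have e0 : (y + 8) % 2 = y % 2 := by omega
  have e1 : (x + (y + 8)) % 4 = (x + y) % 4 := by omega
  rw [e0, e1]

theorem wp_sum : ∑ i ∈ range 8, ∑ j ∈ range 8, wp i j = 0 := by decide

theorem wp_abs (x y : ℤ) : |(wp x y : ℝ)| ≤ 7 := by
  unfold wp
  split_ifs <;> norm_num

/-- the number of primary elements -/
theorem PB_card (V : ℕ) : |((PB V).card : ℝ) - Real.pi / 8 * V| ≤ 45 * Real.sqrt V + 22 := by
  have h1 := per8 (w := wp) wp_x wp_y wp_sum (C := 7) (by norm_num) wp_abs V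
  have h2 : ∑ a ∈ ZB V, ((wp a.re a.im : ℤ) : ℝ) = 8 * ((PB V).card : ℝ) - ((ZB V).card : ℝ) := by
    have e1 : ∀ a ∈ ZB V, ((wp a.re a.im : ℤ) : ℝ) = 8 * (if prim a then (1 : ℝ) else 0) - 1 := by
      intro a _
      unfold wp
      by_cases h : prim a
      · have h' : a.im % 2 = 0 ∧ (a.re + a.im) % 4 = 1 := h
        rw [if_pos h', if_pos h]
        norm_num
      · have h' : ¬ (a.im % 2 = 0 ∧ (a.re + a.im) % 4 = 1) := h
        rw [if_neg h', if_neg h]
        norm_num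
    rw [Finset.sum_congr rfl e1, Finset.sum_sub_distrib, ← Finset.mul_sum, ← Finset.sum_filter,
      Finset.sum_const, Finset.sum_const, nsmul_eq_mul, nsmul_eq_mul, mul_one, mul_one]
    rfl
  rw [h2] at h1
  have h3 := abs_le.1 (ZB_card V)
  have h4 := abs_le.1 h1
  have h5 : (0 : ℝ) ≤ Real.sqrt V := Real.sqrt_nonneg _
  rw [abs_le]
  constructor <;> linarith [h3.1, h3.2, h4.1, h4.2]

/-! ### primary primes -/

theorem prim_star {a : ZI} (h : prim a) : prim (star a) := by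
  obtain ⟨h1, h2⟩ := h
  refine ⟨?_, ?_⟩
  · rw [Zsqrtd.im_star]
    omega
  · rw [Zsqrtd.re_star, Zsqrtd.im_star]
    omega

theorem nrm_star (a : ZI) : nrm (star a) = nrm a := by
  have h1 := Pool.Agent.Y699.nrm_cast (star a)
  have h2 := Pool.Agent.Y699.nrm_cast a
  rw [Zsqrtd.norm_conj] at h1
  exact_mod_cast h1.trans h2.symm

theorem mul_star_eq (a : ZI) : a * star a = ((nrm a : ℕ) : ZI) := by
  have h1 := Zsqrtd.norm_eq_mul_conj a
  rw [← h1, ← Pool.Agent.Y699.nrm_cast a]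
  norm_num

/-- at most two primary primes have the same norm -/
theorem fiber_le (F : Finset ZI) (hF : ∀ π ∈ F, PP π) (n : ℕ) :
    (F.filter fun π => nrm π = n).card ≤ 2 := by
  rcases (F.filter fun π => nrm π = n).eq_empty_or_nonempty with h | ⟨ρ, hρ⟩
  · rw [h]
    norm_num
  · rw [Finset.mem_filter] at hρ
    have h1 : (F.filter fun π => nrm π = n) ⊆ {ρ, star ρ} := by
      intro π hπ
      rw [Finset.mem_filter] at hπ
      have hp := hF π hπ.1
      have hr := hF ρ hρ.1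
      have h2 : π ∣ ρ * star ρ := by
        rw [mul_star_eq, hρ.2, ← hπ.2, ← mul_star_eq]
        exact dvd_mul_right _ _
      have key : ∀ σ : ZI, prim σ → nrm σ = n → π ∣ σ → π = σ := by
        rintro σ hσ hn ⟨u, hu⟩
        have h3 : nrm u = 1 := by
          have h4 : nrm σ = nrm π * nrm u := by rw [hu, nrm_mul]
          rw [hn, hπ.2] at h4
          have h5 : 0 < n := by
            rw [← hπ.2]
            exact nrm_pos' hp.1.ne_zero
          exact (Nat.eq_of_mul_eq_mul_left h5 (by omega : n * 1 = n * nrm u)).symm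
        have h6 : prim u := prim_cancel hp.2 (by rw [← hu]; exact hσ)
        have h7 : u.norm = 1 := by
          have := Pool.Agent.Y699.nrm_cast u
          rw [h3] at this
          exact_mod_cast this.symm
        rw [hu, eq_one_of_prim h6 h7, mul_one]
      rw [Finset.mem_insert, Finset.mem_singleton]
      rcases hp.1.dvd_or_dvd h2 with h3 | h3
      · exact Or.inl (key ρ hr.2 hρ.2 h3)
      · exact Or.inr (key (star ρ) (prim_star hr.2) (by rw [nrm_star]; exact hρ.2) h3)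
    exact (Finset.card_le_card h1).trans (Finset.card_le_two)

theorem tel (K : ℕ) : ∑ k ∈ range (K + 1), (1 : ℝ) / (4 * (k : ℝ) + 5) ^ 2 ≤
    1 / 25 + 1 / 4 * (1 / 7 - 1 / (4 * ((K : ℝ) + 1) + 3)) := by
  induction K with
  | zero => norm_num
  | succ K ih =>
    rw [Finset.sum_range_succ]
    have hK : (0 : ℝ) ≤ K := Nat.cast_nonneg K
    push_cast
    have h1 : (1 : ℝ) / (4 * ((K : ℝ) + 1) + 5) ^ 2 ≤
        1 / 4 * (1 / (4 * ((K : ℝ) + 1) + 3) - 1 / (4 * ((K : ℝ) + 1 + 1) + 3)) := by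
      rw [div_sub_div _ _ (by positivity) (by positivity), ← mul_div_assoc,
        div_le_div_iff₀ (by positivity) (by positivity)]
      nlinarith
    linarith

theorem nrm_mod4 {m : ZI} (hm : prim m) : nrm m % 4 = 1 := by
  have h1 := Pool.Agent.Y699.nrm_cast m
  have h3 : m.norm = m.re ^ 2 + m.im ^ 2 := by rw [Zsqrtd.norm_def]; ring
  obtain ⟨h4, h5⟩ := hm
  obtain ⟨l, hl⟩ : ∃ l, m.im = 2 * l := ⟨m.im / 2, by omega⟩
  obtain ⟨k, hk⟩ : ∃ k, m.re = 2 * k + 1 := ⟨m.re / 2, by omega⟩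
  have h6 : m.norm = 4 * (k ^ 2 + k + l ^ 2) + 1 := by rw [h3, hl, hk]; ring
  omega

/-- the sum of the `1 / N(π)²` -/
theorem sum_prime (F : Finset ZI) (hF : ∀ π ∈ F, PP π) :
    ∑ π ∈ F, (1 : ℝ) / (nrm π : ℝ) ^ 2 ≤ 53 / 350 := by
  have hn : ∀ π ∈ F, nrm π % 4 = 1 ∧ 5 ≤ nrm π := by
    intro π hπ
    have h1 := nrm_mod4 (hF π hπ).2
    refine ⟨h1, ?_⟩
    by_contra h
    have h2 : nrm π = 1 := by omega
    exact (hF π hπ).1.not_unit (Zsqrtd.norm_eq_one_iff.1 h2)
  have h1 : ∑ π ∈ F, (1 : ℝ) / (nrm π : ℝ) ^ 2 ≤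
      2 * ∑ n ∈ F.image nrm, (1 : ℝ) / (n : ℝ) ^ 2 := by
    rw [← Finset.sum_fiberwise_of_maps_to (t := F.image nrm) (g := nrm)
      (fun π hπ => Finset.mem_image_of_mem _ hπ), Finset.mul_sum]
    refine Finset.sum_le_sum fun n _ => ?_
    have h2 : ∑ π ∈ F with nrm π = n, (1 : ℝ) / (nrm π : ℝ) ^ 2 =
        ((F.filter fun π => nrm π = n).card : ℝ) * (1 / (n : ℝ) ^ 2) := by
      rw [← nsmul_eq_mul, ← Finset.sum_const]
      refine Finset.sum_congr rfl fun π hπ => ?_
      rw [(Finset.mem_filter.1 hπ).2]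
    rw [h2]
    refine mul_le_mul_of_nonneg_right ?_ (by positivity)
    exact_mod_cast fiber_le F hF n
  have h2 : ∑ n ∈ F.image nrm, (1 : ℝ) / (n : ℝ) ^ 2 ≤
      ∑ k ∈ range ((F.image nrm).sup id + 1), (1 : ℝ) / (4 * (k : ℝ) + 5) ^ 2 := by
    refine Pool.Agent.Y699.sum_le_inj (fun n => (n - 5) / 4) ?_ ?_ ?_ ?_
    · intro n hn1
      rw [Finset.mem_range]
      have : n ≤ (F.image nrm).sup id := Finset.le_sup (f := id) hn1
      omega
    · intro a ha b hb hab
      rw [Finset.mem_image] at ha hb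
      obtain ⟨π, hπ, rfl⟩ := ha
      obtain ⟨ρ, hρ, rfl⟩ := hb
      have h3 := hn π hπ
      have h4 := hn ρ hρ
      have hab' : (nrm π - 5) / 4 = (nrm ρ - 5) / 4 := hab
      omega
    · intro a ha
      rw [Finset.mem_image] at ha
      obtain ⟨π, hπ, rfl⟩ := ha
      have h3 := hn π hπ
      have h4 : ((nrm π : ℕ) : ℝ) = 4 * (((nrm π - 5) / 4 : ℕ) : ℝ) + 5 := by
        have : nrm π = 4 * ((nrm π - 5) / 4) + 5 := by omega
        exact_mod_cast this
      rw [← h4]
    · intro b _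
      positivity
  have h3 := tel ((F.image nrm).sup id)
  have h4 : (0 : ℝ) ≤ 1 / (4 * ((((F.image nrm).sup id : ℕ) : ℝ) + 1) + 3) := by positivity
  have h5 : (1 : ℝ) / 25 + 1 / 4 * (1 / 7) = 53 / 700 := by norm_num
  linarith

/-! ### squarefree elements -/

theorem dvd_sq {n : ZI} (hn : prim n) (h : ¬ Squarefree n) : ∃ π : ZI, PP π ∧ π * π ∣ n := by
  have hn0 : n ≠ 0 := prim_ne_zero hn
  rw [squarefree_iff_irreducible_sq_not_dvd_of_ne_zero hn0] at h
  push Not at h
  obtain ⟨ρ, hρ, hd⟩ := h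
  have hρp : Prime ρ := irreducible_iff_prime.1 hρ
  have hodd : n.norm % 2 = 1 := prim_norm_odd hn
  obtain ⟨π, hπ, hπd⟩ : ∃ π : ZI, PP π ∧ π ∣ ρ := by
    have h1 : ρ ∣ n := dvd_trans (dvd_mul_right _ _) hd
    have h2 : ρ.norm % 2 = 1 := by
      obtain ⟨c, hc⟩ := h1
      have h3 : n.norm = ρ.norm * c.norm := by rw [hc, Zsqrtd.norm_mul]
      have h4 : ρ.norm % 2 = 0 ∨ ρ.norm % 2 = 1 := Int.emod_two_eq_zero_or_one _
      rcases h4 with h4 | h4
      · exfalso
        rw [h3, Int.mul_emod, h4] at hodd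
        norm_num at hodd
      · exact h4
    obtain ⟨u, hu⟩ := Pool.Agent.Y699.exists_Um h2
    have hu1 : u * star u = 1 := Pool.Agent.Y699.unit_mul_star hu.1
    have h6 : IsUnit u := IsUnit.of_mul_eq_one _ hu1
    refine ⟨u * ρ, ⟨?_, hu.2⟩, ?_⟩
    · have h7 : Associated ρ (u * ρ) := ⟨h6.unit, by rw [IsUnit.unit_spec, mul_comm]⟩
      exact h7.prime hρp
    · exact ⟨star u, by rw [mul_comm u ρ, mul_assoc, hu1, mul_one]⟩
  exact ⟨π, hπ, dvd_trans (mul_dvd_mul hπd hπd) hd⟩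

theorem SB_ge (X : ℕ) (hX : 1 ≤ X) :
    Real.pi / 8 * (297 / 350) * X - (45 * Real.sqrt X + 22) - Er X ≤ ((SB X).card : ℝ) := by
  have hX0 : (0 : ℝ) ≤ X := Nat.cast_nonneg X
  have hX1 : (1 : ℝ) ≤ X := by exact_mod_cast hX
  set P := ((PB (Nat.sqrt X)).filter PP) with hP
  have hPP : ∀ π ∈ P, PP π := fun π hπ => (Finset.mem_filter.1 hπ).2
  have h1 : PB X ⊆ SB X ∪ P.biUnion fun π => (PB (X / (nrm π * nrm π))).image fun k => π * π * k := by
    intro n hn
    rw [mem_PB] at hn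
    by_cases hs : Squarefree n
    · exact Finset.mem_union_left _ (by rw [mem_SB]; exact ⟨hn.1, hn.2, hs⟩)
    · refine Finset.mem_union_right _ ?_
      obtain ⟨π, hπ, k, hk⟩ := dvd_sq hn.2 hs
      have h2 : nrm n = nrm π * nrm π * nrm k := by rw [hk, nrm_mul, nrm_mul]
      have hk0 : k ≠ 0 := by
        rintro rfl
        rw [mul_zero] at hk
        exact prim_ne_zero hn.2 hk
      have h3 : 0 < nrm k := nrm_pos' hk0
      have h4 : 0 < nrm π * nrm π := Nat.mul_pos (nrm_pos' hπ.1.ne_zero) (nrm_pos' hπ.1.ne_zero)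
      rw [Finset.mem_biUnion]
      refine ⟨π, ?_, ?_⟩
      · rw [hP, Finset.mem_filter, mem_PB]
        refine ⟨⟨?_, hπ.2⟩, hπ⟩
        rw [Nat.le_sqrt]
        calc nrm π * nrm π ≤ nrm π * nrm π * nrm k := Nat.le_mul_of_pos_right _ h3
          _ = nrm n := h2.symm
          _ ≤ X := hn.1
      · rw [Finset.mem_image]
        refine ⟨k, ?_, hk.symm⟩
        rw [mem_PB, Nat.le_div_iff_mul_le h4, mul_comm, ← h2]
        refine ⟨hn.1, prim_cancel (prim_mul hπ.2 hπ.2) (by rw [← hk]; exact hn.2)⟩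
  have h2 : ((PB X).card : ℝ) ≤ (SB X).card + ∑ π ∈ P, ((PB (X / (nrm π * nrm π))).card : ℝ) := by
    have h3 : (PB X).card ≤ (SB X).card + ∑ π ∈ P, (PB (X / (nrm π * nrm π))).card := by
      refine (Finset.card_le_card h1).trans ((Finset.card_union_le _ _).trans ?_)
      refine Nat.add_le_add_left (Finset.card_biUnion_le.trans ?_) _
      exact Finset.sum_le_sum fun π _ => Finset.card_image_le
    exact_mod_cast h3
  have h3 : ∀ π ∈ P, ((PB (X / (nrm π * nrm π))).card : ℝ) ≤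
      Real.pi / 8 * X * (1 / (nrm π : ℝ) ^ 2) + 45 * Real.sqrt X * (1 / nrm π) + 22 := by
    intro π hπ
    have h4 : (0 : ℝ) < nrm π := by exact_mod_cast nrm_pos' (hPP π hπ).1.ne_zero
    have h5 := (abs_le.1 (PB_card (X / (nrm π * nrm π)))).2
    have h6 : ((X / (nrm π * nrm π) : ℕ) : ℝ) ≤ X / ((nrm π : ℝ) * nrm π) := by
      refine Nat.cast_div_le.trans (le_of_eq ?_)
      push_cast
      rfl
    have h7 : Real.sqrt ((X / (nrm π * nrm π) : ℕ) : ℝ) ≤ Real.sqrt X * (1 / nrm π) := by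
      refine (Real.sqrt_le_sqrt h6).trans (le_of_eq ?_)
      rw [Real.sqrt_div hX0, Real.sqrt_mul_self h4.le]
      ring
    have h8 : Real.pi / 8 * ((X / (nrm π * nrm π) : ℕ) : ℝ) ≤
        Real.pi / 8 * X * (1 / (nrm π : ℝ) ^ 2) := by
      have h9 : Real.pi / 8 * X * (1 / (nrm π : ℝ) ^ 2) =
          Real.pi / 8 * (X / ((nrm π : ℝ) * nrm π)) := by
        field_simp
      rw [h9]
      exact mul_le_mul_of_nonneg_left h6 (by positivity)
    nlinarith [h5, h7, h8]
  have h4 : ∑ π ∈ P, ((PB (X / (nrm π * nrm π))).card : ℝ) ≤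
      Real.pi / 8 * X * (53 / 350) + 45 * Real.sqrt X * (18 * lg X) +
        22 * ((PB (Nat.sqrt X)).card : ℝ) := by
    refine (Finset.sum_le_sum h3).trans ?_
    rw [Finset.sum_add_distrib, Finset.sum_add_distrib, ← Finset.mul_sum, ← Finset.mul_sum,
      Finset.sum_const, nsmul_eq_mul]
    have h5 := sum_prime P hPP
    have h6 : ∑ π ∈ P, (1 : ℝ) / nrm π ≤ 18 * lg X := by
      refine (Finset.sum_le_sum_of_subset_of_nonneg (Finset.filter_subset _ _)
        (fun _ _ _ => by positivity)).trans ((hsum (Nat.sqrt X)).trans ?_)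
      have := lg_mono (Nat.sqrt_le_self X)
      linarith
    have h7 : (P.card : ℝ) ≤ ((PB (Nat.sqrt X)).card : ℝ) := by
      exact_mod_cast Finset.card_filter_le _ _
    have h8 : (0 : ℝ) ≤ Real.sqrt X := Real.sqrt_nonneg _
    have h9 : 0 < Real.pi := Real.pi_pos
    have e1 := mul_le_mul_of_nonneg_left h5 (by positivity : (0 : ℝ) ≤ Real.pi / 8 * X)
    have e2 := mul_le_mul_of_nonneg_left h6 (by positivity : (0 : ℝ) ≤ 45 * Real.sqrt X)
    linarith
  have h5 : ((PB (Nat.sqrt X)).card : ℝ) ≤ 70 * Real.sqrt X := by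
    have h6 := (abs_le.1 (PB_card (Nat.sqrt X))).2
    have h7 : ((Nat.sqrt X : ℕ) : ℝ) ≤ Real.sqrt X := Real.nat_sqrt_le_real_sqrt
    have h8 : 1 ≤ Real.sqrt X := by rw [Real.one_le_sqrt]; exact hX1
    have h9 : Real.sqrt ((Nat.sqrt X : ℕ) : ℝ) ≤ Real.sqrt X := by
      refine Real.sqrt_le_sqrt ?_
      have : Nat.sqrt X ≤ X := Nat.sqrt_le_self X
      exact_mod_cast this
    have h10 := Real.pi_lt_four
    have h11 : Real.pi / 8 * ((Nat.sqrt X : ℕ) : ℝ) ≤ 1 / 2 * Real.sqrt X := by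
      have h12 := Real.pi_pos
      calc Real.pi / 8 * ((Nat.sqrt X : ℕ) : ℝ) ≤ Real.pi / 8 * Real.sqrt X :=
            mul_le_mul_of_nonneg_left h7 (by positivity)
        _ ≤ _ := mul_le_mul_of_nonneg_right (by linarith) (by linarith)
    linarith
  have h6 := (abs_le.1 (PB_card X)).1
  have h7 := one_le_lg X
  have h8 : (0 : ℝ) ≤ Real.sqrt X := Real.sqrt_nonneg _
  have h9 : Real.sqrt X ≤ Real.sqrt X * lg X := le_mul_of_one_le_right h8 h7
  have h10 : Er X = 2592 * (Real.sqrt X * lg X) + 648 * Real.sqrt X := by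
    unfold Er
    ring
  rw [h10]
  nlinarith [h2, h4, h5, h6, h9]

/-! ### elements without fourth powers -/

theorem odd_form {D : ZI} (h1 : nrm D % 2 = 1) :
    ∃ k < 4, ∃ n : ZI, prim n ∧ nrm n = nrm D ∧ D = im1 ^ k * n := by
  have h4 : D.norm % 2 = 1 := by
    have := Pool.Agent.Y699.nrm_cast D
    omega
  obtain ⟨u, hu⟩ := Pool.Agent.Y699.exists_Um h4
  have hu1 : u * star u = 1 := Pool.Agent.Y699.unit_mul_star hu.1
  have hs : (star u).norm = 1 := by rw [Zsqrtd.norm_conj]; exact hu.1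
  obtain ⟨k, hk, hk2⟩ : ∃ k, k < 4 ∧ star u = im1 ^ k := by
    rcases Pool.Agent.W164.RC.unit_cases hs with h | h | h | h
    · exact ⟨0, by norm_num, by rw [h, pow_zero]⟩
    · exact ⟨1, by norm_num, by rw [h, pow_one]⟩
    · exact ⟨2, by norm_num, h⟩
    · exact ⟨3, by norm_num, h⟩
  refine ⟨k, hk, u * D, hu.2, ?_, ?_⟩
  · have h5 : nrm u = 1 := by
      have := Pool.Agent.Y699.nrm_cast u
      rw [hu.1] at this
      exact_mod_cast this
    rw [nrm_mul, h5, one_mul]
  · rw [← hk2, ← mul_assoc, mul_comm (star u) u, hu1, one_mul]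

theorem strip (m : ℕ) : ∀ D : ZI, ¬ (1 + im1) ^ m ∣ D →
    ∃ j < m, ∃ c : ZI, nrm c % 2 = 1 ∧ D = (1 + im1) ^ j * c := by
  induction m with
  | zero =>
    intro D h
    exact absurd (by rw [pow_zero]; exact one_dvd D) h
  | succ m ih =>
    intro D h
    rcases Nat.mod_two_eq_zero_or_one (nrm D) with h1 | h1
    · obtain ⟨c, rfl⟩ := dvd_even h1
      obtain ⟨j, hj, c', h2, h3⟩ := ih c fun h' => h (by
        rw [pow_succ']
        exact mul_dvd_mul_left _ h')
      exact ⟨j + 1, by omega, c', h2, by rw [h3, pow_succ']; ring⟩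
    · exact ⟨0, by omega, D, h1, by rw [pow_zero, one_mul]⟩

theorem nrm_pow (j : ℕ) : nrm ((1 + im1) ^ j) = 2 ^ j := by
  induction j with
  | zero => decide
  | succ j ih => rw [pow_succ, nrm_mul, ih, nrm_one_add, pow_succ]

theorem ncard_le (S : Set ZI) (X : ℕ) (hS : ∀ D ∈ S, nrm D ≤ X ∧ ¬ (1 + im1) ^ 4 ∣ D) :
    S.ncard ≤ ∑ j ∈ range 4, 4 * (PB (X / 2 ^ j)).card := by
  have h1 : S ⊆ (((range 4).biUnion fun j => (range 4 ×ˢ PB (X / 2 ^ j)).image
      fun p : ℕ × ZI => im1 ^ p.1 * p.2 * (1 + im1) ^ j : Finset ZI) : Set ZI) := by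
    intro D hD
    obtain ⟨h1, h2⟩ := hS D hD
    obtain ⟨j, hj, c, hc, rfl⟩ := strip 4 D h2
    obtain ⟨k, hk, n, hn, h3, rfl⟩ := odd_form hc
    rw [Finset.mem_coe, Finset.mem_biUnion]
    refine ⟨j, Finset.mem_range.2 hj, ?_⟩
    rw [Finset.mem_image]
    refine ⟨(k, n), ?_, by ring⟩
    rw [Finset.mem_product, Finset.mem_range, mem_PB, Nat.le_div_iff_mul_le (by positivity)]
    refine ⟨hk, ?_, hn⟩
    show nrm n * 2 ^ j ≤ X
    rw [h3, ← nrm_pow, ← nrm_mul, mul_comm]
    exact h1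
  have h2 := Set.ncard_le_ncard h1 (Finset.finite_toSet _)
  rw [Set.ncard_coe_finset] at h2
  refine h2.trans (Finset.card_biUnion_le.trans (Finset.sum_le_sum fun j _ => ?_))
  refine Finset.card_image_le.trans ?_
  rw [Finset.card_product, Finset.card_range]

theorem ncard_le' (S : Set ZI) (X : ℕ) (hS : ∀ D ∈ S, nrm D ≤ X ∧ ¬ (1 + im1) ^ 4 ∣ D) :
    (S.ncard : ℝ) ≤ Real.pi / 8 * (15 / 2) * X + (720 * Real.sqrt X + 352) := by
  have h1 : (S.ncard : ℝ) ≤ ∑ j ∈ range 4, 4 * ((PB (X / 2 ^ j)).card : ℝ) := by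
    exact_mod_cast ncard_le S X hS
  have hpi := Real.pi_pos
  have h2 : ∀ j ∈ range 4, 4 * ((PB (X / 2 ^ j)).card : ℝ) ≤
      4 * (Real.pi / 8 * (X / 2 ^ j) + (45 * Real.sqrt X + 22)) := by
    intro j _
    have h3 := (abs_le.1 (PB_card (X / 2 ^ j))).2
    have h4 : ((X / 2 ^ j : ℕ) : ℝ) ≤ X / 2 ^ j := by
      refine Nat.cast_div_le.trans (le_of_eq ?_)
      push_cast
      rfl
    have h5 : Real.sqrt ((X / 2 ^ j : ℕ) : ℝ) ≤ Real.sqrt X := by
      refine Real.sqrt_le_sqrt ?_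
      exact_mod_cast Nat.div_le_self _ _
    have h6 := mul_le_mul_of_nonneg_left h4 (by positivity : (0 : ℝ) ≤ Real.pi / 8)
    linarith
  refine h1.trans ((Finset.sum_le_sum h2).trans (le_of_eq ?_))
  rw [Finset.sum_range_succ, Finset.sum_range_succ, Finset.sum_range_succ, Finset.sum_range_succ,
    Finset.sum_range_zero]
  ring

theorem sqrt_div_tendsto : Tendsto (fun X : ℕ => Real.sqrt X / X) atTop (nhds 0) := by
  have h2 := (tendsto_rpow_neg_atTop (show (0 : ℝ) < 1 / 2 by norm_num)).comp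
    tendsto_natCast_atTop_atTop
  refine h2.congr' ?_
  filter_upwards [eventually_ge_atTop 1] with X hX
  have hX0 : (0 : ℝ) < X := by exact_mod_cast hX
  simp only [Function.comp]
  rw [Real.sqrt_eq_rpow, ← Real.rpow_sub_one hX0.ne']
  norm_num

/-- the number of the squarefree primary elements, eventually -/
theorem SB_ev : ∀ᶠ X : ℕ in atTop, Real.pi / 8 * (848 / 1000) * X ≤ ((SB X).card : ℝ) := by
  have hpi := Real.pi_gt_three
  have h1 : Tendsto (fun X : ℕ => 45 * (Real.sqrt X / X) + 22 * (1 / (X : ℝ)) + Er X / X) atTop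
      (nhds (45 * 0 + 22 * 0 + 0)) :=
    ((sqrt_div_tendsto.const_mul 45).add (tendsto_one_div_atTop_nhds_zero_nat.const_mul 22)).add
      Er_tendsto
  filter_upwards [h1.eventually (gt_mem_nhds (show (45 * 0 + 22 * 0 + 0 : ℝ) < 1 / 10000 by norm_num)),
    eventually_ge_atTop 1] with X hX hX1
  have hX0 : (0 : ℝ) < X := by exact_mod_cast hX1
  have h2 := SB_ge X hX1
  have h3 : 45 * Real.sqrt X + 22 + Er X ≤ 1 / 10000 * X := by
    have h4 := mul_le_mul_of_nonneg_right hX.le hX0.le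
    have h5 : (45 * (Real.sqrt X / X) + 22 * (1 / (X : ℝ)) + Er X / X) * X =
        45 * Real.sqrt X + 22 + Er X := by
      field_simp
    linarith
  have h4 : 3 / 8 * (297 / 350 - 848 / 1000) * X ≤ Real.pi / 8 * (297 / 350 - 848 / 1000) * X :=
    mul_le_mul_of_nonneg_right (by linarith) hX0.le
  nlinarith

theorem fam_ev (S : ℕ → Set ZI) (hS : ∀ X, ∀ D ∈ S X, nrm D ≤ X ∧ ¬ (1 + im1) ^ 4 ∣ D) :
    ∀ᶠ X : ℕ in atTop, ((S X).ncard : ℝ) ≤ Real.pi / 8 * (751 / 100) * X := by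
  have hpi := Real.pi_gt_three
  have h1 : Tendsto (fun X : ℕ => 720 * (Real.sqrt X / X) + 352 * (1 / (X : ℝ))) atTop
      (nhds (720 * 0 + 352 * 0)) :=
    (sqrt_div_tendsto.const_mul 720).add (tendsto_one_div_atTop_nhds_zero_nat.const_mul 352)
  filter_upwards [h1.eventually (gt_mem_nhds (show (720 * 0 + 352 * 0 : ℝ) < 1 / 1000 by norm_num)),
    eventually_ge_atTop 1] with X hX hX1
  have hX0 : (0 : ℝ) < X := by exact_mod_cast hX1
  have h2 := ncard_le' (S X) X (hS X)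
  have h3 : 720 * Real.sqrt X + 352 ≤ 1 / 1000 * X := by
    have h4 := mul_le_mul_of_nonneg_right hX.le hX0.le
    have h5 : (720 * (Real.sqrt X / X) + 352 * (1 / (X : ℝ))) * X = 720 * Real.sqrt X + 352 := by
      field_simp
    linarith
  have h4 : 3 / 8 * (751 / 100 - 15 / 2) * X ≤ Real.pi / 8 * (751 / 100 - 15 / 2) * X :=
    mul_le_mul_of_nonneg_right (by linarith) hX0.le
  nlinarith

end Pool.Agent.U695.XG.Lt
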