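import Pool.Agent.U695.XG.Stm

/-!
# XG: the additive character of the field with two elements and the quadratic symbols
-/

set_option autoImplicit false
set_option linter.all false

open Finset

namespace Pool.Agent.U695.XG

open H385 (ZI nrm)
open Pool.Agent.Y699 (QB PP qr SB PS mem_SB Bil box jac jac_prime qr_cases qr_rec)

theorem z2 (a : ZMod 2) : a = 0 ∨ a = 1 := by
  revert a
  decide

theorem ez_zero : ez 0 = 1 := by
  unfold ez
  rw [if_pos rfl]

theorem ez_one : ez 1 = -1 := by
  unfold ez
  rw [if_neg (by decide)]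

theorem ez_add (a b : ZMod 2) : ez (a + b) = ez a * ez b := by
  rcases z2 a with rfl | rfl <;> rcases z2 b with rfl | rfl
  · rw [add_zero, ez_zero, one_mul]
  · rw [zero_add, ez_zero, one_mul]
  · rw [add_zero, ez_zero, mul_one]
  · have h : (1 : ZMod 2) + 1 = 0 := by decide
    rw [h, ez_zero, ez_one]
    norm_num

theorem ez_sum {κ : Type*} (s : Finset κ) (f : κ → ZMod 2) :
    ez (∑ i ∈ s, f i) = ∏ i ∈ s, ez (f i) := by
  classical
  induction s using Finset.induction_on with
  | empty => rw [sum_empty, prod_empty, ez_zero]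
  | insert a s ha ih => rw [sum_insert ha, prod_insert ha, ez_add, ih]

theorem norm_ez (a : ZMod 2) : ‖ez a‖ = 1 := by
  rcases z2 a with rfl | rfl
  · rw [ez_zero, norm_one]
  · rw [ez_one, norm_neg, norm_one]

theorem sum_ez (b : ZMod 2) : ∑ c : ZMod 2, ez (c * b) = if b = 0 then 2 else 0 := by
  have h : (univ : Finset (ZMod 2)) = {0, 1} := by decide
  rw [h, sum_insert (by decide), sum_singleton, zero_mul, one_mul, ez_zero]
  rcases z2 b with rfl | rfl
  · rw [ez_zero, if_pos rfl]
    norm_num
  · rw [ez_one, if_neg (by decide)]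
    norm_num

theorem conj_ez (a : ZMod 2) : (starRingEnd ℂ) (ez a) = ez a := by
  rcases z2 a with rfl | rfl
  · rw [ez_zero, map_one]
  · rw [ez_one, map_neg, map_one]

/-- the quadratic symbol and the additive symbol -/
theorem ez_cs {π a : ZI} (h : ¬ π ∣ a) : ez (cs π a) = ((qr π a : ℤ) : ℂ) := by
  unfold cs
  rcases qr_cases h with h1 | h1
  · rw [h1, if_neg (by norm_num), ez_zero]
    norm_num
  · rw [h1, if_pos rfl, ez_one]
    norm_num

theorem cs_symm {π ρ : ZI} (h : PP π) (h' : PP ρ) : cs π ρ = cs ρ π := by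
  unfold cs
  rw [qr_rec h h']

theorem cs_self (π : ZI) : cs π π = 0 := by
  unfold cs
  rw [if_neg]
  rw [Pool.Agent.Y699.qr_zero_iff.2 dvd_rfl]
  norm_num

end Pool.Agent.U695.XG
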