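import Pool.Agent.U695.XG.Ch
import Pool.Agent.Y699.Hal2
import Pool.Agent.Y495.CX.FEW

/-! Project XK: the common part of FEW and BAD (helper433). -/

set_option autoImplicit false

open scoped Classical

namespace Pool.Agent.U695.XG.FEWf

open Finset Filter
open H385 (ZI nrm)
open Pool.Agent.Y699 hiding kk
open Pool.Agent.Y703.CX (eL zz kk)
open Pool.Agent.U695.XG
open Pool.Agent.Y495.CX.Few (PN mert eL_tendsto log_small zz_ge loglog_zz rpow_eq)

variable {r : Finset ℕ}

/-- the product of the norms -/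
noncomputable def pN (S : Finset ZI) : ℕ := ∏ π ∈ S, nrm π

theorem pN_pos {S : Finset ZI} (h : ∀ π ∈ S, PP π) : 0 < pN S :=
  Finset.prod_pos fun π hπ => nrm_pos' ((h π hπ).ne)

theorem eulerE (P : Finset ZI) (w : ZI → ℝ) (hw : ∀ p ∈ P, 0 ≤ w p) :
    ∑ S ∈ P.powerset, ∏ p ∈ S, w p ≤ Real.exp (∑ p ∈ P, w p) := by
  rw [← Finset.prod_one_add, Real.exp_sum]
  refine prod_le_prod (fun p hp => by have := hw p hp; linarith) fun p _ => ?_
  have := Real.add_one_le_exp (w p)
  linarith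

/-- Mertens' theorem, upper bound -/
theorem M_le : ∃ C : ℝ, 0 ≤ C ∧ ∀ N : ℕ, 3 ≤ N →
    ∑ π ∈ QB N, (1 : ℝ) / nrm π ≤ 2 * Real.log (Real.log N) + C := by
  obtain ⟨C, hC0, hC⟩ := mert
  refine ⟨2 * C, by positivity, fun N hN => ?_⟩
  have hmaps : ∀ π ∈ QB N, (nrm π).minFac ∈ PN N := by
    intro π hπ
    rw [mem_QB] at hπ
    obtain ⟨h1, -, h3, -⟩ := PP.rat hπ.2
    rw [mem_filter, mem_Icc]
    exact ⟨⟨h1.one_lt.le, h3.trans hπ.1⟩, h1⟩
  rw [← sum_fiberwise_of_maps_to hmaps]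
  have h1 : ∀ p ∈ PN N, ∑ π ∈ (QB N).filter (fun π => (nrm π).minFac = p), (1 : ℝ) / nrm π ≤
      2 * (1 / p) := by
    intro p hp
    have hpp : p.Prime := by
      rw [mem_filter] at hp
      exact hp.2
    have hp0 : (0 : ℝ) < p := by exact_mod_cast hpp.pos
    have h2 : ∀ π ∈ (QB N).filter (fun π => (nrm π).minFac = p), (1 : ℝ) / nrm π ≤ 1 / p := by
      intro π hπ
      rw [mem_filter, mem_QB] at hπ
      obtain ⟨-, -, h3, -⟩ := PP.rat hπ.1.2
      rw [hπ.2] at h3
      exact one_div_le_one_div_of_le hp0 (by exact_mod_cast h3)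
    have h3 : ((QB N).filter (fun π => (nrm π).minFac = p)).card ≤ 2 := by
      refine le_trans (card_le_card ?_) (card_PD_nat hpp)
      intro π hπ
      rw [mem_filter, mem_QB] at hπ
      obtain ⟨-, h4, -, -⟩ := PP.rat hπ.1.2
      rw [hπ.2] at h4
      have hp0' : (p : ZI) ≠ 0 := by
        intro h0
        have h1 := nrm_natCast p
        rw [h0] at h1
        have h2 : nrm (0 : ZI) = 0 := nrm_zero_iff.2 rfl
        rw [h2] at h1
        have := hpp.pos
        have : 0 < p ^ 2 := by positivity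
        omega
      rw [mem_PD hp0']
      exact ⟨hπ.1.2, h4⟩
    calc ∑ π ∈ (QB N).filter (fun π => (nrm π).minFac = p), (1 : ℝ) / nrm π
        ≤ ∑ π ∈ (QB N).filter (fun π => (nrm π).minFac = p), (1 : ℝ) / p := sum_le_sum h2
      _ = ((QB N).filter (fun π => (nrm π).minFac = p)).card * (1 / (p:ℝ)) := by
          rw [sum_const, nsmul_eq_mul]
      _ ≤ 2 * (1 / p) := by
          refine mul_le_mul_of_nonneg_right ?_ (by positivity)
          exact_mod_cast h3
  refine (sum_le_sum h1).trans ?_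
  rw [← mul_sum]
  have := hC N hN
  linarith

/-- the sum over the small parts -/
theorem small_sum (a : ℝ) (ha : 0 ≤ a) (z : ℕ) :
    ∑ S ∈ (QB z).powerset, a ^ S.card * (1 / (pN S : ℝ)) ≤
      Real.exp (a * ∑ π ∈ QB z, (1 : ℝ) / nrm π) := by
  have h := eulerE (QB z) (fun π => a * (1 / (nrm π : ℝ))) fun π _ => by positivity
  rw [← mul_sum] at h
  refine le_trans (le_of_eq ?_) h
  refine sum_congr rfl fun S _ => ?_
  rw [prod_mul_distrib, prod_const, prod_div_distrib, prod_const_one]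
  unfold pN
  push_cast
  rfl

/-- the general estimate -/
theorem gen (a b : ℝ) (ha : 0 ≤ a) (hb : 0 ≤ b) (Q : ℕ → Finset ZI → Prop)
    (hcount : ∀ (X : ℕ) (S₀ : Finset ZI), (∀ u ∈ S₀, PP u ∧ nrm u ≤ zz X) → S₀.card ≤ kk X →
      ∀ F : Finset (Finset ZI),
      (∀ S ∈ F, S ∈ SS r X ∧ (S.card ≤ kk X ∧ Q X S) ∧ sm (zz X) S = S₀) → (F.card : ℝ) ≤
        b * a ^ S₀.card * lg (pN S₀) * (((X / pN S₀ : ℕ) : ℝ) *
          (lg (X / pN S₀)) ^ (-(1 / 3) : ℝ))) :
    ∀ ε : ℝ, 0 < ε → ∃ X₀ : ℕ, ∀ X : ℕ, X₀ ≤ X → ∀ F : Finset (Finset ZI),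
      (∀ S ∈ F, S ∈ SS r X ∧ S.card ≤ kk X ∧ Q X S) → (F.card : ℝ) ≤ ε * X := by
  intro ε hε
  obtain ⟨C, hC0, hC⟩ := M_le
  -- the final comparison
  have hlim : Tendsto (fun l : ℝ => (297 * b * Real.exp (a * C)) * Real.exp (-(1 / 12) * l)) atTop
      (nhds 0) := by
    have h1 : Tendsto (fun l : ℝ => Real.exp (-(1 / 12) * l)) atTop (nhds 0) := by
      refine Real.tendsto_exp_atBot.comp ?_
      exact tendsto_id.const_mul_atTop_of_neg (by norm_num)
    have := h1.const_mul (297 * b * Real.exp (a * C))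
    rwa [mul_zero] at this
  have hpow : ∀ᶠ l : ℝ in atTop, 33 * l ^ 4 + 3 ≤ Real.exp l := by
    have h1 := (Real.isLittleO_pow_exp_atTop (n := 4)).bound (show (0:ℝ) < 1 / 66 by norm_num)
    filter_upwards [h1, eventually_ge_atTop (2:ℝ)] with l hl hl2
    rw [Real.norm_of_nonneg (by positivity), Real.norm_of_nonneg (Real.exp_pos _).le] at hl
    have h2 : (16:ℝ) ≤ l ^ 4 := by
      have := pow_le_pow_left₀ (by norm_num : (0:ℝ) ≤ 2) hl2 4
      linarith
    linarith
  have hev := (((eL_tendsto.eventually (log_small (4 + 6 * a) (1 / 4) (by norm_num))).and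
    (eL_tendsto.eventually (eventually_ge_atTop 2))).and
    (eL_tendsto.eventually (hlim.eventually (gt_mem_nhds hε)))).and (eL_tendsto.eventually hpow)
  obtain ⟨X₀, hX₀⟩ := eventually_atTop.1 hev
  refine ⟨max X₀ 3, fun X hX F hF => ?_⟩
  obtain ⟨⟨⟨k1, k2⟩, k3⟩, k4⟩ := hX₀ X ((le_max_left _ _).trans hX)
  have hX3 : 3 ≤ X := (le_max_right _ _).trans hX
  set ℓ : ℝ := eL X with hℓ
  set z : ℕ := zz X with hz
  set k : ℕ := kk X with hk
  have hl0 : 0 < ℓ := by linarith
  have hlX : Real.log X = Real.exp ℓ := by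
    have := rpow_eq (X := X) k2 1
    rwa [Real.rpow_one, one_mul] at this
  have hX0 : (0 : ℝ) < X := by exact_mod_cast (by omega : 0 < X)
  have hk11 : (k : ℝ) ≤ 11 * ℓ := by
    have h := Nat.ceil_lt_add_one (show (0 : ℝ) ≤ 10 * eL X by rw [← hℓ]; positivity)
    have h' : (k : ℝ) < 10 * ℓ + 1 := h
    linarith
  have hz3 : 3 ≤ z := zz_ge k2
  have hz0 : (0 : ℝ) < z := by exact_mod_cast (by omega : 0 < z)
  have hzlog : Real.log z ≤ ℓ ^ 3 := by
    rw [Real.log_le_iff_le_exp hz0]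
    exact Nat.floor_le (Real.exp_pos _).le
  have hzlog0 : 0 < Real.log z := Real.log_pos (by exact_mod_cast (by omega : 1 < z))
  have hl4 : (1 : ℝ) ≤ ℓ ^ 4 := one_le_pow₀ (by linarith)
  set W : Finset (Finset ZI) := (QB z).powerset.filter fun S => S.card ≤ k with hW
  have hmaps : ∀ S ∈ F, sm z S ∈ W := by
    intro S hS
    replace hS := hF S hS
    rw [hW, mem_filter, mem_powerset]
    refine ⟨?_, (card_le_card (filter_subset _ _)).trans hS.2.1⟩
    intro π hπ
    unfold sm at hπ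
    rw [mem_filter] at hπ
    unfold SS at hS
    rw [mem_filter] at hS
    rw [mem_QB]
    exact ⟨hπ.2, hS.1.2.1.1 π hπ.1⟩
  have hcard : (F.card : ℝ) = ∑ S₀ ∈ W, ((F.filter fun S => sm z S = S₀).card : ℝ) := by
    have := card_eq_sum_card_fiberwise hmaps
    exact_mod_cast this
  have hone : ∀ S₀ ∈ W, ((F.filter fun S => sm z S = S₀).card : ℝ) ≤
      (a ^ S₀.card * (1 / (pN S₀ : ℝ))) * (297 * b * ℓ ^ 4 * X * Real.exp (-(1 / 3) * ℓ)) := by
    intro S₀ hS₀
    rw [hW, mem_filter, mem_powerset] at hS₀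
    have hpq : ∀ u ∈ S₀, PP u ∧ nrm u ≤ z := fun u hu => by
      have := hS₀.1 hu
      rw [mem_QB] at this
      exact ⟨this.2, this.1⟩
    have h1 := hcount X S₀ hpq hS₀.2 (F.filter fun S => sm z S = S₀) (fun S hS => by
      rw [mem_filter] at hS
      have h := hF S hS.1
      exact ⟨h.1, h.2, hS.2⟩)
    refine h1.trans ?_
    set N := pN S₀ with hN
    have hN0 : 0 < N := pN_pos fun u hu => (hpq u hu).1
    have hN0' : (0 : ℝ) < N := by exact_mod_cast hN0
    have hlN : Real.log N ≤ 11 * ℓ ^ 4 := by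
      have e1 : Real.log N = ∑ p ∈ S₀, Real.log (nrm p) := by
        rw [hN]
        unfold pN
        push_cast
        rw [Real.log_prod]
        intro p hp
        have := nrm_ne ((hpq p hp).1.ne)
        exact_mod_cast this
      rw [e1]
      calc ∑ p ∈ S₀, Real.log (nrm p) ≤ ∑ _p ∈ S₀, Real.log z := by
            refine sum_le_sum fun p hp => ?_
            exact Real.log_le_log (by exact_mod_cast nrm_pos' ((hpq p hp).1.ne))
              (by exact_mod_cast (hpq p hp).2)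
        _ = S₀.card * Real.log z := by rw [sum_const, nsmul_eq_mul]
        _ ≤ (11 * ℓ) * ℓ ^ 3 := by
            refine mul_le_mul (le_trans (by exact_mod_cast hS₀.2) hk11) hzlog hzlog0.le
              (by positivity)
        _ = 11 * ℓ ^ 4 := by ring
    have hlgN : lg N ≤ 33 * ℓ ^ 4 := by
      rcases Nat.lt_or_ge N 2 with h | h
      · have : N = 1 := by omega
        rw [this]
        have : lg 1 = 1 := by unfold lg; simp
        rw [this]
        linarith
      · have := lg_le_log h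
        linarith
    have hYle : ((X / N : ℕ) : ℝ) ≤ (X : ℝ) / N := Nat.cast_div_le
    have hYge : Real.exp (Real.log X / 3) ≤ ((X / N : ℕ) : ℝ) := by
      have e1 : (X : ℝ) / N < ((X / N : ℕ) : ℝ) + 1 := by
        rw [div_lt_iff₀ hN0']
        have := Nat.lt_mul_div_succ X hN0
        have h' : ((X : ℕ) : ℝ) < ((N * (X / N + 1) : ℕ) : ℝ) := by exact_mod_cast this
        rw [Nat.cast_mul, Nat.cast_add, Nat.cast_one] at h'
        linarith
      have e2 : Real.exp (Real.log X - Real.log N) = (X : ℝ) / N := by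
        rw [Real.exp_sub, Real.exp_log hX0, Real.exp_log hN0']
      have e3 : Real.exp (Real.log X / 3 + 1) ≤ (X : ℝ) / N := by
        rw [← e2]
        apply Real.exp_le_exp.2
        rw [← hlX] at k4
        linarith
      rw [Real.exp_add] at e3
      have e4 : (2 : ℝ) ≤ Real.exp 1 := by have := Real.exp_one_gt_d9; linarith
      have e5 : (1 : ℝ) ≤ Real.exp (Real.log X / 3) := by
        apply Real.one_le_exp
        rw [hlX]
        positivity
      nlinarith
    have hY1 : 1 ≤ X / N := by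
      have : (0:ℝ) < ((X / N : ℕ) : ℝ) := lt_of_lt_of_le (Real.exp_pos _) hYge
      exact_mod_cast this
    have hlgY : Real.exp ℓ / 3 ≤ lg (X / N) := by
      refine le_trans ?_ (log_le_lg hY1)
      rw [← hlX, Real.le_log_iff_exp_le (by exact_mod_cast hY1)]
      exact hYge
    have hrp : (lg (X / N)) ^ (-(1 / 3) : ℝ) ≤ 3 * Real.exp (-(1 / 3) * ℓ) := by
      have e1 : (lg (X / N)) ^ (-(1 / 3) : ℝ) ≤ (Real.exp ℓ / 3) ^ (-(1 / 3) : ℝ) :=
        Real.rpow_le_rpow_of_nonpos (by positivity) hlgY (by norm_num)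
      refine e1.trans ?_
      rw [Real.div_rpow (Real.exp_pos _).le (by norm_num), ← Real.exp_mul, div_eq_mul_inv,
        ← Real.rpow_neg (by norm_num), neg_neg, mul_comm ℓ, mul_comm]
      refine mul_le_mul_of_nonneg_right ?_ (Real.exp_pos _).le
      calc (3:ℝ) ^ (1 / 3 : ℝ) ≤ 3 ^ (1:ℝ) :=
            Real.rpow_le_rpow_of_exponent_le (by norm_num) (by norm_num)
        _ = 3 := Real.rpow_one _
    have hlg0 : 0 ≤ lg N := (zero_le_one.trans (one_le_lg N))
    have hrp0 : 0 ≤ (lg (X / N)) ^ (-(1 / 3) : ℝ) :=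
      Real.rpow_nonneg (zero_le_one.trans (one_le_lg _)) _
    calc b * a ^ S₀.card * lg N * (((X / N : ℕ) : ℝ) * (lg (X / N)) ^ (-(1 / 3) : ℝ))
        ≤ b * a ^ S₀.card * (33 * ℓ ^ 4) * (((X : ℝ) / N) * (3 * Real.exp (-(1 / 3) * ℓ))) := by
          gcongr
      _ ≤ _ := by
          have : b * a ^ S₀.card * (33 * ℓ ^ 4) * (((X : ℝ) / N) * (3 * Real.exp (-(1 / 3) * ℓ))) =
            (a ^ S₀.card * (1 / (N : ℝ))) * (99 * b * ℓ ^ 4 * X * Real.exp (-(1 / 3) * ℓ)) := by
            ring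
          rw [this]
          gcongr
          norm_num
  have hsum : (F.card : ℝ) ≤ Real.exp (a * ∑ π ∈ QB z, (1 : ℝ) / nrm π) *
      (297 * b * ℓ ^ 4 * X * Real.exp (-(1 / 3) * ℓ)) := by
    rw [hcard]
    refine (sum_le_sum hone).trans ?_
    rw [← sum_mul]
    refine mul_le_mul_of_nonneg_right ?_ (by positivity)
    refine le_trans ?_ (small_sum a ha z)
    refine sum_le_sum_of_subset_of_nonneg (filter_subset _ _) fun S _ _ => by positivity
  have hM : a * ∑ π ∈ QB z, (1 : ℝ) / nrm π ≤ a * C + 6 * a * Real.log ℓ := by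
    have h1 := hC z hz3
    have h2 := loglog_zz k2
    have h3 : ∑ π ∈ QB z, (1 : ℝ) / nrm π ≤ 6 * Real.log ℓ + C := by linarith
    have := mul_le_mul_of_nonneg_left h3 ha
    linarith
  have hl4' : ℓ ^ 4 = Real.exp (4 * Real.log ℓ) := by
    rw [show (4:ℝ) * Real.log ℓ = Real.log (ℓ ^ 4) by rw [Real.log_pow]; push_cast; ring]
    exact (Real.exp_log (by positivity)).symm
  calc (F.card : ℝ) ≤ Real.exp (a * C + 6 * a * Real.log ℓ) *
        (297 * b * ℓ ^ 4 * X * Real.exp (-(1 / 3) * ℓ)) := by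
        refine hsum.trans ?_
        gcongr
    _ = 297 * b * Real.exp (a * C) * Real.exp ((4 + 6 * a) * Real.log ℓ - 1 / 3 * ℓ) * X := by
        rw [hl4', Real.exp_add, show (4 + 6 * a) * Real.log ℓ - 1 / 3 * ℓ =
          6 * a * Real.log ℓ + 4 * Real.log ℓ + -(1 / 3) * ℓ by ring, Real.exp_add, Real.exp_add]
        ring
    _ ≤ 297 * b * Real.exp (a * C) * Real.exp (-(1 / 12) * ℓ) * X := by
        gcongr
        linarith
    _ ≤ ε * X := by
        refine mul_le_mul_of_nonneg_right ?_ hX0.le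
        exact le_of_lt k3

end Pool.Agent.U695.XG.FEWf
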