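import Pool.Agent.U695.XG.NS
import Pool.Agent.Y699.Hal2

/-!
# XG: the count of squarefree primary Gaussian integers in classes
-/

set_option autoImplicit false
set_option linter.all false

open scoped Classical

namespace Pool.Agent.U695.XG.Mob

open Finset
open H385 (ZI im1 nrm)
open Pool.Agent.H304R2.EC.A1 (prim prim_mul prim_cancel prim_one prim_norm_odd eq_one_of_prim
  prim_ne_zero)
open Pool.Agent.Y699 (PP PD mem_PD PS PS_prod SB mem_SB PB mem_PB ZB mem_ZB sum_ZB nrm_mul nrm_pos'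
  nrm_eq' norm_le_of_dvd exists_PP odd_of_dvd card_SB_le hsum_SB lg one_le_lg lg_le_log lg_mono)

/-- the sum of the signs of the square divisors -/
theorem detect {n : ZI} (hn : prim n) {X : ℕ} (hX : nrm n ≤ X) :
    ∑ m ∈ (SB X).filter (fun m => m * m ∣ n), (-1 : ℝ) ^ (PD m).card =
      if Squarefree n then 1 else 0 := by
  have hn0 : n ≠ 0 := prim_ne_zero hn
  set A := (PD n).filter (fun π => π * π ∣ n) with hA
  have hPP : ∀ T : Finset ZI, T ⊆ A → ∀ π ∈ T, PP π := fun T hT π hπ =>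
    ((mem_PD hn0).1 (Finset.mem_filter.1 (hT hπ)).1).1
  have hsq : ∀ T : Finset ZI, T ⊆ A → (∏ π ∈ T, π) * (∏ π ∈ T, π) ∣ n := by
    intro T hT
    rw [← Finset.prod_mul_distrib]
    refine Finset.prod_dvd_of_coprime ?_ ?_
    · intro π hπ ρ hρ hne
      have h1 : IsCoprime π ρ := (hPP T hT π hπ).cop (hPP T hT ρ hρ) hne
      exact (h1.mul_left h1).mul_right (h1.mul_left h1)
    · intro π hπ
      exact (Finset.mem_filter.1 (hT hπ)).2
  have h1 : ∑ m ∈ (SB X).filter (fun m => m * m ∣ n), (-1 : ℝ) ^ (PD m).card =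
      ∑ T ∈ A.powerset, (-1 : ℝ) ^ T.card := by
    refine Finset.sum_bij' (fun m _ => PD m) (fun T _ => ∏ π ∈ T, π) ?_ ?_ ?_ ?_ ?_
    · intro m hm
      rw [Finset.mem_filter, mem_SB] at hm
      rw [Finset.mem_powerset]
      intro π hπ
      obtain ⟨k1, k2⟩ := (mem_PD hm.1.2.ne).1 hπ
      rw [hA, Finset.mem_filter, mem_PD hn0]
      exact ⟨⟨k1, (k2.trans (dvd_mul_right m m)).trans hm.2⟩, (mul_dvd_mul k2 k2).trans hm.2⟩
    · intro T hT
      rw [Finset.mem_powerset] at hT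
      rw [Finset.mem_filter, mem_SB]
      refine ⟨⟨?_, (PS_prod (hPP T hT)).1⟩, hsq T hT⟩
      exact (norm_le_of_dvd hn0 ((dvd_mul_right _ _).trans (hsq T hT))).trans hX
    · intro m hm
      rw [Finset.mem_filter, mem_SB] at hm
      exact hm.1.2.prod
    · intro T hT
      rw [Finset.mem_powerset] at hT
      exact (PS_prod (hPP T hT)).2
    · intro m hm
      rfl
  have h2 : ∑ T ∈ A.powerset, (-1 : ℝ) ^ T.card = if A = ∅ then 1 else 0 := by
    have h3 := Finset.sum_powerset_neg_one_pow_card (x := A)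
    have h4 : ((∑ T ∈ A.powerset, (-1 : ℤ) ^ T.card : ℤ) : ℝ) =
        ((if A = ∅ then 1 else 0 : ℤ) : ℝ) := by rw [h3]
    push_cast at h4
    exact h4
  rw [h1, h2]
  have h3 : A = ∅ ↔ Squarefree n := by
    constructor
    · intro h x hx
      by_contra hu
      have hx0 : x ≠ 0 := by
        rintro rfl
        rw [zero_mul, zero_dvd_iff] at hx
        exact hn0 hx
      obtain ⟨ρ, hρ, hρx⟩ := WfDvdMonoid.exists_irreducible_factor hu hx0
      have hρ' : Prime ρ := irreducible_iff_prime.1 hρ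
      have k1 : ρ * ρ ∣ n := (mul_dvd_mul hρx hρx).trans hx
      obtain ⟨π, hπ, hass⟩ := exists_PP hρ' (odd_of_dvd ((dvd_mul_right _ _).trans k1)
        (prim_norm_odd hn))
      have k2 : π * π ∣ n := (mul_dvd_mul hass.dvd hass.dvd).trans k1
      have k3 : π ∈ A := by
        rw [hA, Finset.mem_filter, mem_PD hn0]
        exact ⟨⟨hπ, (dvd_mul_right _ _).trans k2⟩, k2⟩
      rw [h] at k3
      exact Finset.notMem_empty _ k3
    · intro h
      rw [Finset.eq_empty_iff_forall_notMem]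
      intro π hπ
      rw [hA, Finset.mem_filter, mem_PD hn0] at hπ
      exact hπ.1.1.pr.not_isUnit (h π hπ.2)
  by_cases h : A = ∅
  · rw [if_pos h, if_pos (h3.1 h)]
  · rw [if_neg h, if_neg (fun h' => h (h3.2 h'))]

/-- **sums over squarefree primary elements** -/
theorem mob (f : ZI → ℝ) {X Y : ℕ} (hYX : Y ≤ X) : ∑ n ∈ SB Y, f n =
    ∑ m ∈ SB X, (-1 : ℝ) ^ (PD m).card * ∑ k ∈ PB (Y / (nrm m * nrm m)), f (m * m * k) := by
  have h1 : ∑ n ∈ SB Y, f n = ∑ n ∈ PB Y, f n *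
      ∑ m ∈ (SB X).filter (fun m => m * m ∣ n), (-1 : ℝ) ^ (PD m).card := by
    have e1 : SB Y = (PB Y).filter Squarefree := by
      ext n
      rw [mem_SB, Finset.mem_filter, mem_PB]
      constructor
      · rintro ⟨h1, h2⟩
        exact ⟨⟨h1, h2.prm⟩, h2.sqf⟩
      · rintro ⟨⟨h1, h2⟩, h3⟩
        exact ⟨h1, h2, h3⟩
    rw [e1, Finset.sum_filter]
    refine Finset.sum_congr rfl fun n hn => ?_
    rw [mem_PB] at hn
    rw [detect hn.2 (hn.1.trans hYX)]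
    split_ifs <;> simp
  have h2 : ∑ n ∈ PB Y, f n * ∑ m ∈ (SB X).filter (fun m => m * m ∣ n), (-1 : ℝ) ^ (PD m).card =
      ∑ n ∈ PB Y, ∑ m ∈ SB X, (if m * m ∣ n then (-1 : ℝ) ^ (PD m).card * f n else 0) := by
    refine Finset.sum_congr rfl fun n _ => ?_
    rw [Finset.mul_sum, Finset.sum_filter]
    refine Finset.sum_congr rfl fun m _ => ?_
    split_ifs
    · ring
    · rfl
  rw [h1, h2, Finset.sum_comm]
  refine Finset.sum_congr rfl fun m hm => ?_
  rw [mem_SB] at hm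
  have hm0 := hm.2.ne
  rw [← Finset.sum_filter, Finset.mul_sum]
  refine Finset.sum_bij' (fun n _ => n / (m * m)) (fun k _ => m * m * k) ?_ ?_ ?_ ?_ ?_
  · intro n hn
    rw [Finset.mem_filter, mem_PB] at hn
    obtain ⟨⟨h3, h4⟩, k, rfl⟩ := hn
    rw [mul_div_cancel_left₀ k (mul_ne_zero hm0 hm0), mem_PB]
    refine ⟨?_, prim_cancel (prim_mul hm.2.prm hm.2.prm) h4⟩
    rw [Nat.le_div_iff_mul_le (Nat.mul_pos (nrm_pos' hm0) (nrm_pos' hm0))]
    rw [nrm_mul, nrm_mul] at h3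
    linarith
  · intro k hk
    rw [mem_PB, Nat.le_div_iff_mul_le (Nat.mul_pos (nrm_pos' hm0) (nrm_pos' hm0))] at hk
    rw [Finset.mem_filter, mem_PB, nrm_mul, nrm_mul]
    refine ⟨⟨?_, prim_mul (prim_mul hm.2.prm hm.2.prm) hk.2⟩, dvd_mul_right _ _⟩
    linarith [hk.1]
  · intro n hn
    rw [Finset.mem_filter] at hn
    obtain ⟨-, k, rfl⟩ := hn
    rw [mul_div_cancel_left₀ k (mul_ne_zero hm0 hm0)]
  · intro k hk
    exact mul_div_cancel_left₀ k (mul_ne_zero hm0 hm0)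
  · intro n hn
    rw [Finset.mem_filter] at hn
    obtain ⟨-, k, rfl⟩ := hn
    rw [mul_div_cancel_left₀ k (mul_ne_zero hm0 hm0)]

/-- sums of functions with period eight -/
theorem per8 {w : ℤ → ℤ → ℤ} (h1 : ∀ x y, w (x + 8) y = w x y) (h2 : ∀ x y, w x (y + 8) = w x y)
    (h0 : ∑ i ∈ range 8, ∑ j ∈ range 8, w i j = 0) {C : ℝ} (hC : 0 < C)
    (hb : ∀ x y, |(w x y : ℝ)| ≤ C) (V : ℕ) :
    |∑ a ∈ ZB V, ((w a.re a.im : ℤ) : ℝ)| ≤ C * (24 * (2 * Real.sqrt V + 1)) := by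
  have h3 : ∑ a ∈ ZB V, ((w a.re a.im : ℤ) : ℝ) =
      C * ∑ a ∈ ZB V, (((w a.re a.im : ℤ) : ℝ) / C) := by
    rw [Finset.mul_sum]
    refine Finset.sum_congr rfl fun a _ => ?_
    field_simp
  rw [h3, abs_mul, abs_of_pos hC]
  refine mul_le_mul_of_nonneg_left ?_ hC.le
  rw [sum_ZB V (fun a => ((w a.re a.im : ℤ) : ℝ) / C)]
  have h4 := Pool.Agent.Y699.Lat.disc_bound (f := fun x y => ((w x y : ℤ) : ℝ) / C) (N := 8)
    (by norm_num) (fun x y => by
      show ((w (x + 8) y : ℤ) : ℝ) / C = _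
      rw [h1]) (fun x y => by
      show ((w x (y + 8) : ℤ) : ℝ) / C = _
      rw [h2]) (by
      have e : ∑ i ∈ range 8, ∑ j ∈ range 8, ((w (i : ℤ) (j : ℤ) : ℤ) : ℝ) / C =
          ((∑ i ∈ range 8, ∑ j ∈ range 8, w i j : ℤ) : ℝ) / C := by
        push_cast
        rw [Finset.sum_div]
        refine Finset.sum_congr rfl fun i _ => ?_
        rw [Finset.sum_div]
      rw [e, h0]
      simp) (fun x y => by
      show |((w x y : ℤ) : ℝ) / C| ≤ 1
      rw [abs_div, abs_of_pos hC, div_le_one hC]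
      exact hb x y) V
  refine h4.trans (le_of_eq ?_)
  norm_num

/-- the function of a class of the norm modulo sixteen -/
def wc (c : ℤ) (x y : ℤ) : ℤ :=
  if y % 2 = 0 ∧ (x + y) % 4 = 1 then (if (x ^ 2 + y ^ 2) % 16 = c then 3 else -1) else 0

theorem wc_x (c x y : ℤ) : wc c (x + 8) y = wc c x y := by
  unfold wc
  have e1 : (x + 8 + y) % 4 = (x + y) % 4 := by omega
  have e2 : ((x + 8) ^ 2 + y ^ 2) % 16 = (x ^ 2 + y ^ 2) % 16 := by
    have : (x + 8) ^ 2 + y ^ 2 = (x ^ 2 + y ^ 2) + 16 * (x + 4) := by ring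
    rw [this]
    omega
  rw [e1, e2]

theorem wc_y (c x y : ℤ) : wc c x (y + 8) = wc c x y := by
  unfold wc
  have e0 : (y + 8) % 2 = y % 2 := by omega
  have e1 : (x + (y + 8)) % 4 = (x + y) % 4 := by omega
  have e2 : (x ^ 2 + (y + 8) ^ 2) % 16 = (x ^ 2 + y ^ 2) % 16 := by
    have : x ^ 2 + (y + 8) ^ 2 = (x ^ 2 + y ^ 2) + 16 * (y + 4) := by ring
    rw [this]
    omega
  rw [e0, e1, e2]

theorem wc_sum {c : ℤ} (hc : c = 1 ∨ c = 5 ∨ c = 9 ∨ c = 13) :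
    ∑ i ∈ range 8, ∑ j ∈ range 8, wc c i j = 0 := by
  rcases hc with rfl | rfl | rfl | rfl <;> decide

theorem wc_abs (c x y : ℤ) : |(wc c x y : ℝ)| ≤ 3 := by
  unfold wc
  split_ifs <;> norm_num

/-- the class function on Gaussian integers -/
noncomputable def Fc (c : ℤ) (a : ZI) : ℝ := ((wc c a.re a.im : ℤ) : ℝ)

theorem Fc_prim {c : ℤ} {a : ZI} (h : prim a) : Fc c a = if (nrm a : ℤ) % 16 = c then 3 else -1 := by
  unfold Fc wc
  have h' : a.im % 2 = 0 ∧ (a.re + a.im) % 4 = 1 := h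
  rw [if_pos h', nrm_eq']
  split_ifs <;> norm_num

theorem Fc_not {c : ℤ} {a : ZI} (h : ¬ prim a) : Fc c a = 0 := by
  unfold Fc wc
  have h' : ¬ (a.im % 2 = 0 ∧ (a.re + a.im) % 4 = 1) := h
  rw [if_neg h']
  norm_num

theorem sum_PB_Fc (c : ℤ) (V : ℕ) : ∑ a ∈ PB V, Fc c a = ∑ a ∈ ZB V, Fc c a := by
  refine Finset.sum_subset ?_ ?_
  · intro a ha
    rw [mem_PB] at ha
    rw [mem_ZB]
    exact ha.1
  · intro a ha hna
    apply Fc_not
    intro h
    apply hna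
    rw [mem_ZB] at ha
    exact mem_PB.2 ⟨ha, h⟩

theorem norm_sq_mod {m : ZI} (hm : prim m) : (nrm m * nrm m) % 16 = 1 ∨ (nrm m * nrm m) % 16 = 9 := by
  have h1 := Pool.Agent.Y699.nrm_cast m
  have h2 : (nrm m) % 4 = 1 := by
    have h3 : m.norm = m.re ^ 2 + m.im ^ 2 := by rw [Zsqrtd.norm_def]; ring
    obtain ⟨h4, h5⟩ := hm
    obtain ⟨l, hl⟩ : ∃ l, m.im = 2 * l := ⟨m.im / 2, by omega⟩
    obtain ⟨k, hk⟩ : ∃ k, m.re = 2 * k + 1 := ⟨m.re / 2, by omega⟩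
    have h6 : m.norm = 1 + 4 * (k + k ^ 2 + l ^ 2) := by rw [h3, hl, hk]; ring
    omega
  have h3 : nrm m % 16 = 1 ∨ nrm m % 16 = 5 ∨ nrm m % 16 = 9 ∨ nrm m % 16 = 13 := by omega
  rw [Nat.mul_mod]
  rcases h3 with h | h | h | h <;> rw [h] <;> norm_num

/-- multiplication by a square permutes the classes -/
theorem Fc_sq {c : ℤ} (hc : c = 1 ∨ c = 5 ∨ c = 9 ∨ c = 13) {m : ZI} (hm : prim m) :
    ∃ c' : ℤ, (c' = 1 ∨ c' = 5 ∨ c' = 9 ∨ c' = 13) ∧ ∀ k, Fc c (m * m * k) = Fc c' k := by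
  have hpk : ∀ k, prim (m * m * k) ↔ prim k := fun k =>
    ⟨fun h => prim_cancel (prim_mul hm hm) h, fun h => prim_mul (prim_mul hm hm) h⟩
  rcases norm_sq_mod hm with h | h
  · refine ⟨c, hc, fun k => ?_⟩
    by_cases hk : prim k
    · rw [Fc_prim hk, Fc_prim ((hpk k).2 hk)]
      have e : ((nrm (m * m * k) : ℕ) : ℤ) % 16 = (nrm k : ℤ) % 16 := by
        rw [nrm_mul, nrm_mul]
        have : (nrm m * nrm m * nrm k) % 16 = nrm k % 16 := by
          rw [Nat.mul_mod, h, one_mul, Nat.mod_mod]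
        exact_mod_cast this
      rw [e]
    · rw [Fc_not hk, Fc_not (fun h' => hk ((hpk k).1 h'))]
  · refine ⟨(c + 8) % 16, by rcases hc with rfl | rfl | rfl | rfl <;> norm_num, fun k => ?_⟩
    by_cases hk : prim k
    · rw [Fc_prim hk, Fc_prim ((hpk k).2 hk)]
      have e : ((nrm (m * m * k) : ℕ) : ℤ) % 16 = (9 * (nrm k : ℤ)) % 16 := by
        rw [nrm_mul, nrm_mul]
        have : (nrm m * nrm m * nrm k) % 16 = (9 * nrm k) % 16 := by
          rw [Nat.mul_mod, h, Nat.mul_mod 9, Nat.mod_mod]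
          norm_num
        exact_mod_cast this
      have hk4 : (nrm k : ℤ) % 4 = 1 := by
        have h3 : (nrm k : ℤ) = k.re ^ 2 + k.im ^ 2 := nrm_eq' k
        obtain ⟨h4, h5⟩ := hk
        obtain ⟨l, hl⟩ : ∃ l, k.im = 2 * l := ⟨k.im / 2, by omega⟩
        obtain ⟨j, hj⟩ : ∃ j, k.re = 2 * j + 1 := ⟨k.re / 2, by omega⟩
        have h6 : (nrm k : ℤ) = 1 + 4 * (j + j ^ 2 + l ^ 2) := by rw [h3, hl, hj]; ring
        omega
      have e2 : ((nrm (m * m * k) : ℕ) : ℤ) % 16 = c ↔ (nrm k : ℤ) % 16 = (c + 8) % 16 := by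
        rw [e]
        rcases hc with rfl | rfl | rfl | rfl <;> omega
      by_cases h' : (nrm k : ℤ) % 16 = (c + 8) % 16
      · rw [if_pos h', if_pos (e2.2 h')]
      · rw [if_neg h', if_neg (fun h'' => h' (e2.1 h''))]
    · rw [Fc_not hk, Fc_not (fun h' => hk ((hpk k).1 h'))]

/-- the error term -/
noncomputable def Er (X : ℕ) : ℝ := 3 * (24 * (2 * Real.sqrt X * (18 * lg X) + 9 * Real.sqrt X))

/-- a sum over square divisors -/
theorem sum_div {X : ℕ} (hX : 1 ≤ X) {G : ZI → ℝ}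
    (hG : ∀ m ∈ SB X, nrm m * nrm m ≤ X →
      |G m| ≤ 3 * (24 * (2 * Real.sqrt ((X / (nrm m * nrm m) : ℕ) : ℝ) + 1)))
    (hG0 : ∀ m ∈ SB X, ¬ nrm m * nrm m ≤ X → G m = 0) :
    |∑ m ∈ SB X, (-1 : ℝ) ^ (PD m).card * G m| ≤ Er X := by
  have hX0 : (0 : ℝ) ≤ X := Nat.cast_nonneg X
  have hs1 : 1 ≤ Nat.sqrt X := Nat.le_sqrt.2 (by omega)
  have h1 : ∑ m ∈ SB X, (-1 : ℝ) ^ (PD m).card * G m =
      ∑ m ∈ SB (Nat.sqrt X), (-1 : ℝ) ^ (PD m).card * G m := by
    symm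
    refine Finset.sum_subset ?_ ?_
    · intro m hm
      rw [mem_SB] at hm ⊢
      exact ⟨hm.1.trans (Nat.sqrt_le_self X), hm.2⟩
    · intro m hm hnm
      rw [hG0 m hm, mul_zero]
      intro h
      apply hnm
      rw [mem_SB] at hm ⊢
      exact ⟨Nat.le_sqrt.2 h, hm.2⟩
  rw [h1]
  have h2 : ∀ m ∈ SB (Nat.sqrt X), |(-1 : ℝ) ^ (PD m).card * G m| ≤
      3 * (24 * (2 * Real.sqrt X * (1 / nrm m) + 1)) := by
    intro m hm
    have hm' := mem_SB.1 hm
    have hle : nrm m * nrm m ≤ X := Nat.le_sqrt.1 hm'.1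
    have hmX : m ∈ SB X := mem_SB.2 ⟨hm'.1.trans (Nat.sqrt_le_self X), hm'.2⟩
    rw [abs_mul, abs_pow, abs_neg, abs_one, one_pow, one_mul]
    refine (hG m hmX hle).trans ?_
    have hn0 : (0 : ℝ) < nrm m := by exact_mod_cast nrm_pos' hm'.2.ne
    have h3 : Real.sqrt ((X / (nrm m * nrm m) : ℕ) : ℝ) ≤ Real.sqrt X * (1 / nrm m) := by
      rw [Real.sqrt_le_left (by positivity), mul_pow, Real.sq_sqrt hX0]
      refine Nat.cast_div_le.trans (le_of_eq ?_)
      push_cast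
      field_simp
    have h4 : 2 * Real.sqrt ((X / (nrm m * nrm m) : ℕ) : ℝ) ≤
        2 * Real.sqrt X * (1 / nrm m) := by
      rw [mul_assoc]
      exact mul_le_mul_of_nonneg_left h3 (by norm_num)
    linarith
  refine (Finset.abs_sum_le_sum_abs _ _).trans ((Finset.sum_le_sum h2).trans ?_)
  rw [← Finset.mul_sum, ← Finset.mul_sum, Finset.sum_add_distrib, ← Finset.mul_sum,
    Finset.sum_const, nsmul_eq_mul, mul_one]
  have h3 := hsum_SB (Nat.sqrt X)
  have h4 := card_SB_le hs1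
  have h5 : lg (Nat.sqrt X) ≤ lg X := lg_mono (Nat.sqrt_le_self X)
  have h6 : ((Nat.sqrt X : ℕ) : ℝ) ≤ Real.sqrt X := Real.nat_sqrt_le_real_sqrt
  have h7 : 0 ≤ Real.sqrt X := Real.sqrt_nonneg _
  unfold Er
  have h8 : 2 * Real.sqrt X * ∑ x ∈ SB (Nat.sqrt X), (1 : ℝ) / nrm x ≤
      2 * Real.sqrt X * (18 * lg X) := mul_le_mul_of_nonneg_left (by linarith) (by positivity)
  have h9 : ((SB (Nat.sqrt X)).card : ℝ) ≤ 9 * Real.sqrt X := by linarith
  gcongr

theorem PB_zero : PB 0 = ∅ := by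
  rw [Finset.eq_empty_iff_forall_notMem]
  intro x hx
  rw [mem_PB] at hx
  have := nrm_pos' (prim_ne_zero hx.2)
  omega

/-- **equidistribution of the norms of squarefree primary elements in the classes modulo sixteen** -/
theorem class_sum {c : ℤ} (hc : c = 1 ∨ c = 5 ∨ c = 9 ∨ c = 13) {X : ℕ} (hX : 1 ≤ X) :
    |∑ n ∈ SB X, Fc c n| ≤ Er X := by
  rw [mob (Fc c) (le_refl X)]
  refine sum_div hX (G := fun m => ∑ k ∈ PB (X / (nrm m * nrm m)), Fc c (m * m * k)) ?_ ?_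
  · intro m hm _
    rw [mem_SB] at hm
    obtain ⟨c', hc', h⟩ := Fc_sq hc hm.2.prm
    show |∑ k ∈ PB (X / (nrm m * nrm m)), Fc c (m * m * k)| ≤ _
    simp only [h]
    rw [sum_PB_Fc]
    exact per8 (w := wc c') (wc_x c') (wc_y c') (wc_sum hc') (by norm_num) (wc_abs c') _
  · intro m hm hle
    have : X / (nrm m * nrm m) = 0 := Nat.div_eq_of_lt (not_le.1 hle)
    show ∑ k ∈ PB (X / (nrm m * nrm m)), Fc c (m * m * k) = 0
    rw [this, PB_zero, Finset.sum_empty]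

/-- the function for the comparison of `X` and `X / 2` -/
def wh (x y : ℤ) : ℤ :=
  if y % 2 = 0 ∧ (x + y) % 4 = 1 then -1 else if x % 4 = 1 ∧ y % 4 = 1 then 2 else 0

theorem wh_x (x y : ℤ) : wh (x + 8) y = wh x y := by
  unfold wh
  have e1 : (x + 8 + y) % 4 = (x + y) % 4 := by omega
  have e2 : (x + 8) % 4 = x % 4 := by omega
  rw [e1, e2]

theorem wh_y (x y : ℤ) : wh x (y + 8) = wh x y := by
  unfold wh
  have e0 : (y + 8) % 2 = y % 2 := by omega
  have e1 : (x + (y + 8)) % 4 = (x + y) % 4 := by omega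
  have e2 : (y + 8) % 4 = y % 4 := by omega
  rw [e0, e1, e2]

theorem wh_sum : ∑ i ∈ range 8, ∑ j ∈ range 8, wh i j = 0 := by decide

theorem wh_abs (x y : ℤ) : |(wh x y : ℝ)| ≤ 2 := by
  unfold wh
  split_ifs <;> norm_num

/-- the elements `(1 + i) k`, `k` primary -/
theorem even_iff {a : ZI} : (a.re % 4 = 1 ∧ a.im % 4 = 1) ↔ ∃ k : ZI, prim k ∧ a = (1 + im1) * k := by
  constructor
  · rintro ⟨h1, h2⟩
    refine ⟨⟨(a.re + a.im) / 2, (a.im - a.re) / 2⟩, ⟨?_, ?_⟩, ?_⟩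
    · show (a.im - a.re) / 2 % 2 = 0
      omega
    · show ((a.re + a.im) / 2 + (a.im - a.re) / 2) % 4 = 1
      omega
    · have e1 : (1 + im1 : ZI) = ⟨1, 1⟩ := by decide
      rw [e1]
      ext
      · simp
        omega
      · simp
        omega
  · rintro ⟨k, ⟨h1, h2⟩, rfl⟩
    have e1 : (1 + im1 : ZI) = ⟨1, 1⟩ := by decide
    rw [e1]
    simp
    omega

theorem nrm_one_add : nrm (1 + im1) = 2 := by decide

theorem half_PB (Y : ℕ) :
    |((PB (Y / 2)).card : ℝ) - ((PB Y).card : ℝ) / 2| ≤ 24 * (2 * Real.sqrt Y + 1) := by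
  have h1 := per8 (w := wh) wh_x wh_y wh_sum (C := 2) (by norm_num) wh_abs Y
  have h2 : ∑ a ∈ ZB Y, ((wh a.re a.im : ℤ) : ℝ) =
      2 * ((PB (Y / 2)).card : ℝ) - ((PB Y).card : ℝ) := by
    have e1 : ∀ a ∈ ZB Y, ((wh a.re a.im : ℤ) : ℝ) =
        (if a.re % 4 = 1 ∧ a.im % 4 = 1 then (2 : ℝ) else 0) - (if prim a then 1 else 0) := by
      intro a _
      unfold wh
      have hp : prim a ↔ (a.im % 2 = 0 ∧ (a.re + a.im) % 4 = 1) := Iff.rfl
      by_cases h : a.im % 2 = 0 ∧ (a.re + a.im) % 4 = 1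
      · have h' : ¬ (a.re % 4 = 1 ∧ a.im % 4 = 1) := by omega
        rw [if_pos h, if_pos (hp.2 h), if_neg h']
        norm_num
      · rw [if_neg h, if_neg (fun h' => h (hp.1 h'))]
        split_ifs <;> norm_num
    rw [Finset.sum_congr rfl e1, Finset.sum_sub_distrib, ← Finset.sum_filter, ← Finset.sum_filter,
      Finset.sum_const, Finset.sum_const, nsmul_eq_mul, nsmul_eq_mul, mul_one]
    have e2 : ((ZB Y).filter (fun a => a.re % 4 = 1 ∧ a.im % 4 = 1)).card = (PB (Y / 2)).card := by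
      symm
      refine Finset.card_bij (fun k _ => (1 + im1) * k) ?_ ?_ ?_
      · intro k hk
        rw [mem_PB] at hk
        rw [Finset.mem_filter, mem_ZB, nrm_mul, nrm_one_add]
        exact ⟨by omega, even_iff.2 ⟨k, hk.2, rfl⟩⟩
      · intro k _ k' _ h
        exact mul_left_cancel₀ (by decide) h
      · intro a ha
        rw [Finset.mem_filter, mem_ZB] at ha
        obtain ⟨k, hk, rfl⟩ := even_iff.1 ha.2
        rw [nrm_mul, nrm_one_add] at ha
        exact ⟨k, mem_PB.2 ⟨by omega, hk⟩, rfl⟩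
    have e3 : (ZB Y).filter (fun a => prim a) = PB Y := by
      ext a
      rw [Finset.mem_filter, mem_ZB, mem_PB]
    rw [e2, e3]
    ring
  rw [h2] at h1
  have h3 : ((PB (Y / 2)).card : ℝ) - ((PB Y).card : ℝ) / 2 =
      (2 * ((PB (Y / 2)).card : ℝ) - ((PB Y).card : ℝ)) / 2 := by ring
  rw [h3, abs_div, abs_of_pos (by norm_num : (0 : ℝ) < 2), div_le_iff₀ (by norm_num)]
  linarith

/-- **the count up to `X / 2`** -/
theorem half_SB {X : ℕ} (hX : 1 ≤ X) :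
    |((SB (X / 2)).card : ℝ) - ((SB X).card : ℝ) / 2| ≤ Er X := by
  have e1 : ∀ Y : ℕ, Y ≤ X → ((SB Y).card : ℝ) =
      ∑ m ∈ SB X, (-1 : ℝ) ^ (PD m).card * ((PB (Y / (nrm m * nrm m))).card : ℝ) := by
    intro Y hY
    have h := mob (fun _ => 1) hY
    simp only [Finset.sum_const, nsmul_eq_mul, mul_one] at h
    exact h
  have h1 : ((SB (X / 2)).card : ℝ) - ((SB X).card : ℝ) / 2 =
      ∑ m ∈ SB X, (-1 : ℝ) ^ (PD m).card * (((PB ((X / (nrm m * nrm m)) / 2)).card : ℝ) -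
        ((PB (X / (nrm m * nrm m))).card : ℝ) / 2) := by
    rw [e1 (X / 2) (Nat.div_le_self _ _), e1 X le_rfl, Finset.sum_div, ← Finset.sum_sub_distrib]
    refine Finset.sum_congr rfl fun m _ => ?_
    rw [Nat.div_right_comm]
    ring
  rw [h1]
  refine sum_div hX ?_ ?_
  · intro m _ _
    refine (half_PB _).trans ?_
    have h2 : 0 ≤ Real.sqrt ((X / (nrm m * nrm m) : ℕ) : ℝ) := Real.sqrt_nonneg _
    linarith
  · intro m _ hle
    have : X / (nrm m * nrm m) = 0 := Nat.div_eq_of_lt (not_le.1 hle)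
    rw [this]
    simp [PB_zero]

end Pool.Agent.U695.XG.Mob
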