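import Mathlib
import Pool.Agent.Y703.CX.Stm
import Pool.Agent.Y699.Box
import Pool.Agent.Y699.Hal2

/-!
# The exact proportion over the Gaussian integers: definitions and statements of the parts

`D` runs over the squarefree primary Gaussian integers whose norm is, modulo `16`, in a given set `r`.
The proportion of those for which the Laplacian of the symmetric matrix over the field with two
elements of the quadratic residue symbols of the prime divisors has only the constants in its kernel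
tends to `∏_{i ≥ 0} (1 - 2^{-(2i+1)}) = 0.4194...`. This is a transport of the library project XK
(helper703 and others, the same for the cubic symbols over `ℚ(ω)`) to the quadratic symbols over
`ℚ(i)`, on the library `Pool/Agent/Y699` (`QB V`: primary primes of norm at most `V`; `SB V`:
squarefree primary elements of norm at most `V`; `PD n`: the primary primes dividing `n`).
-/

set_option autoImplicit false
set_option linter.unusedVariables false

open scoped Classical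

namespace Pool.Agent.U695.XG

open Finset
open H385 (ZI nrm)
open Pool.Agent.Y699 (QB PP qr)
open Pool.Agent.Y703.CX (jj XX eL zz kk)

/-- the quadratic symbol, additively -/
noncomputable def cs (π a : ZI) : ZMod 2 := if qr π a = -1 then 1 else 0

/-- the additive character -/
noncomputable def ez (a : ZMod 2) : ℂ := if a = 0 then 1 else -1

/-- the kernel of the Laplacian of the quadratic residue symbols -/
def Sol (S : Finset ZI) (v : ZI → ZMod 2) : Prop :=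
  ∀ π ∈ S, ∑ ρ ∈ S, cs π ρ * (v ρ - v π) = 0

/-- the good sets: all solutions are constant -/
def Gd (S : Finset ZI) : Prop := ∀ v, Sol S v → ∀ π ∈ S, ∀ ρ ∈ S, v π = v ρ

/-- the class of the sets of primary primes -/
def Cl (r : Finset ℕ) (S : Finset ZI) : Prop := (∀ π ∈ S, PP π) ∧ (∏ π ∈ S, nrm π) % 16 ∈ r

/-- the sets of the class with norm at most `X` -/
noncomputable def SS (r : Finset ℕ) (X : ℕ) : Finset (Finset ZI) :=
  (QB X).powerset.filter fun S => Cl r S ∧ ∏ π ∈ S, nrm π ≤ X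

/-- the limit `(1 - 1/2) (1 - 1/8) (1 - 1/32) ⋯` -/
noncomputable def c2 : ℝ := ∏' i : ℕ, (1 - (1 / 2 : ℝ) ^ (2 * i + 1))

/-- the class has positive density. -/
def S_LOW (r : Finset ℕ) : Prop :=
  ∃ (c : ℝ) (X₀ : ℕ), 0 < c ∧ ∀ X : ℕ, X₀ ≤ X → c * X ≤ ((SS r X).card : ℝ)

/-- FINAL: the proportion of the good sets -/
def S_DQ : Prop := ∀ r : Finset ℕ, S_LOW r → Filter.Tendsto
  (fun X : ℕ => (((SS r X).filter Gd).card : ℝ) / ((SS r X).card : ℝ)) Filter.atTop (nhds c2)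

/-- BIL: bilinear sums of quadratic symbols. -/
def S_BIL : Prop := ∃ C : ℝ, 1 ≤ C ∧ ∀ (P Q : Finset ZI) (A B z : ℕ) (c d : ZI → ℂ) (a : ZMod 2),
  (∀ π ∈ P, PP π ∧ nrm π ≤ A) → (∀ ρ ∈ Q, PP ρ ∧ nrm ρ ≤ B) → Disjoint P Q → a ≠ 0 →
  1 ≤ z → z ≤ A → z ≤ B → (∀ π, ‖c π‖ ≤ 1) → (∀ ρ, ‖d ρ‖ ≤ 1) →
  ‖∑ π ∈ P, ∑ ρ ∈ Q, c π * d ρ * ez (a * cs π ρ)‖ ^ 24 * z ≤ C * ((A : ℝ) * B) ^ 24

/-- the pairs of indices -/
noncomputable def prs (ι : Type) [Fintype ι] [LinearOrder ι] : Finset (ι × ι) :=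
  univ.filter fun e => e.1 < e.2

/-- the bilinear hypothesis for a box -/
def HB {ι : Type} (C : ι → Finset ZI) (X : ι → ℕ) (κ : ℝ) : Prop :=
  ∀ i l : ι, i ≠ l → ∀ (a : ZMod 2) (c d : ZI → ℂ), a ≠ 0 → (∀ π, ‖c π‖ ≤ 1) → (∀ ρ, ‖d ρ‖ ≤ 1) →
    ‖∑ x ∈ C i, ∑ y ∈ C l, c x * d y * ez (a * cs x y)‖ ≤ κ * (X i * X l)

/-- EQ: equidistribution of the symbols of a tuple. -/
def S_EQ : Prop := ∀ (ι : Type) [Fintype ι] [LinearOrder ι] (C : ι → Finset ZI)
  (X : ι → ℕ) (κ : ℝ), 0 ≤ κ → (∀ i, (C i).card ≤ X i) → HB C X κ →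
  ∀ Q : (prs ι → ZMod 2) → Prop,
    |(((Fintype.piFinset C).filter fun p => Q fun e => cs (p e.1.1) (p e.1.2)).card : ℝ) -
      ((univ.filter Q).card : ℝ) / 2 ^ (prs ι).card * ∏ j, ((C j).card : ℝ)| ≤
    2 ^ (prs ι).card * (κ * ∏ j, (X j : ℝ))

/-- the symmetric matrix with given entries above the diagonal -/
noncomputable def ext {ι : Type} [Fintype ι] [LinearOrder ι] (α : prs ι → ZMod 2) (k l : ι) :
    ZMod 2 :=
  if h : (k, l) ∈ prs ι then α ⟨(k, l), h⟩ else if h' : (l, k) ∈ prs ι then α ⟨(l, k), h'⟩ else 0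

/-- all solutions of the block system are constant -/
def GdA {U J : Type} [Fintype U] [Fintype J] (A : U → U → ZMod 2) (B : U → J → ZMod 2)
    (R : J → J → ZMod 2) : Prop :=
  ∀ (c : U → ZMod 2) (d : J → ZMod 2),
    (∀ u, ∑ v, A u v * (c v - c u) + ∑ l, B u l * (d l - c u) = 0) →
    (∀ k, ∑ u, B u k * (c u - d k) + ∑ l, R k l * (d l - d k) = 0) →
    ∃ t : ZMod 2, (∀ u, c u = t) ∧ ∀ l, d l = t

/-- SYM: the number of the nonsingular symmetric matrices over the field with two elements. -/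
def S_SYM : Prop := ∀ n : ℕ,
  (Nat.card {M : Matrix (Fin n) (Fin n) (ZMod 2) // M.IsSymm ∧ M.det ≠ 0} : ℝ) =
    2 ^ (n * (n + 1) / 2) * ∏ i ∈ range ((n + 1) / 2), (1 - (1 / 2 : ℝ) ^ (2 * i + 1))

/-- C2: the infinite product. -/
def S_C2 : Prop := (∀ n : ℕ, |∏ i ∈ range n, (1 - (1 / 2 : ℝ) ^ (2 * i + 1)) - c2| ≤ (1 / 4 : ℝ) ^ n) ∧
  0 < c2 ∧ c2 < 1 ∧ 0.4194 < c2 ∧ c2 < 0.4195

/-- LA: the probability that a random symmetric completion is good. -/
def S_LA : Prop := ∀ (U J : Type) [Fintype U] [Fintype J] [LinearOrder J]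
  (A : U → U → ZMod 2) (B : U → J → ZMod 2), Fintype.card U < Fintype.card J →
  (∀ u v, A u v = A v u) →
  (∀ w : U → ZMod 2, (∃ u, w u ≠ 0) → ∃ k, ∑ u, w u * B u k ≠ 0) →
  |((univ.filter fun α : prs J → ZMod 2 => GdA A B (ext α)).card : ℝ) /
      2 ^ (prs J).card - c2| ≤ 2 * (2 ^ Fintype.card U / 2 ^ Fintype.card J)

/-- the labels of the large primes with respect to the small ones are not degenerate -/
def Nd (S₀ S₁ : Finset ZI) : Prop :=
  ∀ v : ZI → ZMod 2, (∃ u ∈ S₀, v u ≠ 0) → ∃ π ∈ S₁, ∑ u ∈ S₀, v u * cs u π ≠ 0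

/-- BOX: the count in a box. -/
def S_BOX : Prop := S_EQ → S_LA → ∀ (ι : Type) [Fintype ι] [LinearOrder ι]
  (C : ι → Finset ZI) (X : ι → ℕ) (κ : ℝ) (S₀ : Finset ZI), 0 ≤ κ → (∀ i, (C i).card ≤ X i) →
  HB C X κ → (∀ u ∈ S₀, PP u) → (∀ i, ∀ π ∈ C i, PP π ∧ π ∉ S₀) →
  (∀ i l, i ≠ l → Disjoint (C i) (C l)) → S₀.card < Fintype.card ι →
  |(((Fintype.piFinset C).filter fun p => Nd S₀ (univ.image p) ∧ Gd (S₀ ∪ univ.image p)).card : ℝ) -
      c2 * (((Fintype.piFinset C).filter fun p => Nd S₀ (univ.image p)).card : ℝ)| ≤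
    2 * (2 ^ S₀.card / 2 ^ Fintype.card ι) *
      (((Fintype.piFinset C).filter fun p => Nd S₀ (univ.image p)).card : ℝ) +
    2 ^ (S₀.card * Fintype.card ι + (prs ι).card) * (κ * ∏ j, (X j : ℝ))

/-- the small primes of a set -/
noncomputable def sm (z : ℕ) (S : Finset ZI) : Finset ZI := S.filter fun π => nrm π ≤ z

/-- the large primes of a set -/
noncomputable def la (z : ℕ) (S : Finset ZI) : Finset ZI := S.filter fun π => ¬ nrm π ≤ z

/-- the number of the block of a prime -/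
noncomputable def bl (H : ℕ) (π : ZI) : ℕ := jj H (nrm π)

/-- the regular sets -/
noncomputable def RR (r : Finset ℕ) (X z H k V : ℕ) : Finset (Finset ZI) :=
  (SS r X).filter fun S => Set.InjOn (bl H) (la z S : Set ZI) ∧ S.card ≤ k ∧
    (∏ π ∈ sm z S, nrm π) * ∏ π ∈ la z S, XX H (bl H π) ≤ X ∧
    (sm z S).card + V < (la z S).card

/-- KEY: the sum over the boxes. -/
def S_KEY (r : Finset ℕ) : Prop := S_BIL → S_EQ → S_LA → S_BOX → ∃ C : ℝ, 1 ≤ C ∧
  ∀ (X z H k V N : ℕ) (κ : ℝ), 1 ≤ X → 1 ≤ H → 1 ≤ z → 0 ≤ κ → C ≤ κ ^ 24 * z →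
  (H : ℝ) * Real.log X < N →
  |(((RR r X z H k V).filter fun S => Nd (sm z S) (la z S) ∧ Gd S).card : ℝ) -
      c2 * (((RR r X z H k V).filter fun S => Nd (sm z S) (la z S)).card : ℝ)| ≤
    2 * (1 / 2 : ℝ) ^ V * ((RR r X z H k V).card : ℝ) +
    (16 * N + 16 : ℝ) ^ k * (3 ^ (9 * k ^ 2 + 9) * κ) * (X * (1 + Real.log X))

/-- CNT: sets with many primes, sets near the boundary, sets with two primes in a block. -/
structure CntP (r : Finset ℕ) (C : ℝ) : Prop where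
  one : 1 ≤ C
  all : ∀ X : ℕ, 1 ≤ X → ((SS r X).card : ℝ) ≤ C * X
  many : ∀ X k : ℕ, 1 ≤ X → (((SS r X).filter fun S => k < S.card).card : ℝ) * 2 ^ k ≤
    C * (X * (1 + Real.log X))
  cut : ∀ X z H k : ℕ, 1 ≤ X → 1 ≤ H → 1 ≤ k → (((SS r X).filter fun S => S.card ≤ k ∧
    X < (∏ π ∈ sm z S, nrm π) * ∏ π ∈ la z S, XX H (bl H π)).card : ℝ) ≤
      C * (X * (1 + Real.log X)) * (k / H) + C * X * Real.exp (-(Real.log X) / k)
  coll : ∀ X z H : ℕ, 1 ≤ X → 1 ≤ z → 1 ≤ H → (((SS r X).filter fun S =>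
    ¬ Set.InjOn (bl H) (la z S : Set ZI)).card : ℝ) ≤ C * (X * (1 + Real.log X)) / H + C * X / z

/-- CNT -/
def S_CNT (r : Finset ℕ) : Prop := ∃ C : ℝ, CntP r C

/-- BAD: few sets have degenerate labels. -/
def S_BAD (r : Finset ℕ) : Prop := ∀ ε : ℝ, 0 < ε → ∃ X₀ : ℕ, ∀ X : ℕ, X₀ ≤ X →
  (((SS r X).filter fun S => S.card ≤ kk X ∧ ¬ Nd (sm (zz X) S) (la (zz X) S)).card : ℝ) ≤ ε * X

/-- FEW: few sets have few large primes. -/
def S_FEW (r : Finset ℕ) : Prop := ∀ (V : ℕ) (ε : ℝ), 0 < ε → ∃ X₀ : ℕ, ∀ X : ℕ, X₀ ≤ X →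
  (((SS r X).filter fun S => S.card ≤ kk X ∧ (la (zz X) S).card ≤ (sm (zz X) S).card + V).card : ℝ) ≤
    ε * X

end Pool.Agent.U695.XG
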